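import Mathlib

/-! Levels: rings of symbols with a counter; actions, reads and the reversible one-way rule. -/

set_option autoImplicit false

namespace Pool.Agent.MP_88e1ca_an.Log

/-- small values: pointer, selector, type, bit -/
abbrev G (H M : ℕ) := ZMod H × ZMod 10 × ZMod M × ZMod 2

/-- constants of the program -/
abbrev G0 (M : ℕ) := ℤ × ZMod 10 × ZMod M × ZMod 2

/-- instructions -/
structure Ins (M : ℕ) where
  snd : Bool
  b : ZMod M
  i : Fin 3
  a : G0 M
  g : Bool
  r : ZMod 10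

/-- a ring of symbols with a small part and a counter of period `N` -/
structure Lv (H M : ℕ) (V : Type) [CommRing V] where
  last : V →+* G H M
  cst : G H M →+* V
  last_cst : ∀ g, last (cst g) = g
  nt : V → V
  ng : V → V
  N : ℕ
  val : V → ℕ
  two : 2 ≤ N
  nt_nt : ∀ x, nt (nt x) = x
  ng_ng : ∀ x, ng (ng x) = x
  val_nt : ∀ x, val (nt x) + val x + 1 = N
  val_ng : ∀ x, val (ng x) = if val x = 0 then 0 else N - val x
  val_zero : val 0 = 0

variable {H M : ℕ} {V : Type} [CommRing V] (L : Lv H M V) (P : ZMod H → Ins M)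

theorem Lv.val_lt (x : V) : L.val x < L.N := by have := L.val_nt x; omega

theorem Lv.val_tick (x : V) : L.val (L.ng (L.nt x)) = (L.val x + 1) % L.N := by
  have := L.val_nt x
  rw [L.val_ng]
  split_ifs with h
  · rw [show L.val x + 1 = L.N by omega, Nat.mod_self]
  · rw [Nat.mod_eq_of_lt (by omega)]; omega

/-- a constant as a small value -/
def cg (a : G0 M) : G H M := ((a.1 : ZMod H), a.2)

/-- actions -/
def act (i : Fin 3) (v x : V) : V :=
  if i = 0 then x + v else if (L.last v).2.2.2 = 0 then x else if i = 1 then L.nt x else L.ng x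

theorem act_zero (i : Fin 3) (x : V) : act L i 0 x = x := by simp [act]

theorem act_add (i : Fin 3) (u v x : V) : act L i v (act L i u x) = act L i (u + v) x := by
  have h : ∀ b : ZMod 2, b = 0 ∨ b = 1 := by decide
  have h2 : (1 : ZMod 2) + 1 = 0 := by decide
  by_cases h0 : i = 0
  · simp [act, h0, add_assoc]
  · rcases h (L.last u).2.2.2 with k | k <;> rcases h (L.last v).2.2.2 with k' | k' <;>
      by_cases h1 : i = 1 <;> simp [act, h0, h1, k, k', h2, L.nt_nt, L.ng_ng]

/-- the factor of a read instruction -/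
def Gf (g : Bool) (t : G H M) : G H M :=
  if t.2.1 = 0 ∧ (P t.1).snd = false ∧ (P t.1).b + 1 = t.2.2.1 ∧ (P t.1).g = g then cg (P t.1).a else 0

/-- the factor of a send instruction -/
def Ra (t : G H M) : G H M :=
  if t.2.1 = 0 ∧ (P t.1).snd = true ∧ (P t.1).b = t.2.2.1 then cg (P t.1).a else 0

/-- index of an action -/
def eC (i : Fin 3) : ZMod 10 := 7 + i.val

/-- reads of the small part -/
def lf (r : ZMod 10) (t : G H M) : G H M :=
  if r = 3 then (if t.1 = 0 ∧ t.2.1 = 0 ∧ t.2.2.1 = -1 then 1 else 0)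
  else if r = 4 then (-t.1, (P t.1).r, -t.2.2.1, 0)
  else if r = 5 ∨ r = 6 then Gf P (decide (r = 5)) t else if eC (P t.1).i = r then Ra P t else 0

/-- the counter is zero -/
def zz (x : V) : V := if L.val x = 0 then 1 else 0

/-- reads -/
def hf (r : ZMod 10) (x : V) : V :=
  if r = 0 then 1 else if r = 1 then x else if r = 2 then zz L x else L.cst (lf P r (L.last x))

/-- the value of the command -/
def cv (m c k : V) : V := m * L.cst (Ra P (L.last c)) * zz L k

/-- the value read by a register -/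
def rv (c k d m c' k' : V) : V :=
  if (L.last c).1 = (L.last c').1 ∧ (L.last c).2.2.1 + 1 = (L.last c').2.2.1 then
    zz L k * hf L P ((L.last c).2.1 + (P (L.last c').1).r) d *
      (m * L.cst (Gf P true (L.last c')) + L.cst (Gf P false (L.last c'))) * zz L k' else 0

/-- patterns of kinds -/
def pD (κ : ℤ → ZMod 4) (i : ℤ) : Prop := κ i = 0 ∧ κ (i + 1) = 1 ∧ κ (i + 2) = 2 ∧ κ (i + 3) = 3

/-- patterns of kinds -/
def pR (κ : ℤ → ZMod 4) (i : ℤ) : Prop := κ i = 1 ∧ κ (i + 1) = 2 ∧ κ (i + 2) = 3 ∧ κ (i + 3) = 0 ∧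
  κ (i + 4) = 1 ∧ κ (i + 5) = 2 ∧ κ (i + 6) = 3

instance (κ : ℤ → ZMod 4) (i : ℤ) : Decidable (pD κ i) := by unfold pD; infer_instance

instance (κ : ℤ → ZMod 4) (i : ℤ) : Decidable (pR κ i) := by unfold pR; infer_instance

variable (κ : ℤ → ZMod 4)

/-- the update of data and registers -/
def U (σ : V) (x : ℤ → V) (i : ℤ) : V :=
  if pD κ i then act L (P (L.last (x (i + 2))).1).i (σ * cv L P (x (i + 1)) (x (i + 2)) (x (i + 3))) (x i)
  else if pR κ i then x i + σ * rv L P (x (i + 1)) (x (i + 2)) (x (i + 3)) (x (i + 4)) (x (i + 5))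
    (x (i + 6)) else x i

/-- the step of the pointers -/
def TC (σ : V) (x : ℤ → V) (i : ℤ) : V :=
  if κ i = 2 ∧ κ (i + 1) = 3 then x i + σ * (L.cst (1, 0) * zz L (x (i + 1))) else x i

/-- the step of the counters -/
def TK (f : V → V) (x : ℤ → V) (i : ℤ) : V := if κ i = 3 then f (x i) else x i

theorem U_zero (x : ℤ → V) : U L P κ 0 x = x := funext fun i => by simp [U, act_zero]

theorem U_CK (σ : V) (x : ℤ → V) {i : ℤ} (h : κ i = 2 ∨ κ i = 3) : U L P κ σ x i = x i := by
  rw [U, if_neg, if_neg] <;> rintro ⟨k, -⟩ <;> rw [k] at h <;> revert h <;> decide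

theorem rv_Ra (c k d m c' k' : V) : rv L P c k d m c' k' * L.cst (Ra P (L.last c)) = 0 := by
  rw [rv]
  split_ifs with h
  · cases e : (P (L.last c).1).snd
    · simp [Ra, e]
    · simp [Gf, ← h.1, e]
  · exact zero_mul _

theorem rv_Gf (h1 : (1 : ZMod M) ≠ 0) (g : Bool) (c k d m c' k' : V) :
    rv L P c k d m c' k' * L.cst (Gf P g (L.last c)) = 0 := by
  rw [rv]
  split_ifs with h
  · by_cases e : (P (L.last c).1).b + 1 = (L.last c).2.2.1
    · have : ¬ (P (L.last c).1).b + 1 = (L.last c').2.2.1 := fun q => h1 (by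
        rw [e, ← h.2] at q; simpa using q)
      simp [Gf, ← h.1, this]
    · simp [Gf, e]
  · exact zero_mul _

theorem rv_act (c k d m c' k' u : V) (j : Fin 3) :
    rv L P c k (act L j (u * L.cst (Ra P (L.last c'))) d) m c' k' = rv L P c k d m c' k' := by
  cases e : (P (L.last c').1).snd
  · simp [Ra, e, act_zero]
  · simp [rv, Gf, e]

theorem rv_add (c k d m c' k' u : V) (h : u * L.cst (Gf P true (L.last c')) = 0) :
    rv L P c k d (m + u) c' k' = rv L P c k d m c' k' := by
  simp only [rv, add_mul m, h, add_zero]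

theorem UU (h1 : (1 : ZMod M) ≠ 0) (σ σ' : V) (x : ℤ → V) :
    U L P κ σ' (U L P κ σ x) = U L P κ (σ + σ') x := by
  funext i
  by_cases hD : pD κ i
  · have : cv L P (U L P κ σ x (i + 1)) (x (i + 2)) (x (i + 3)) =
        cv L P (x (i + 1)) (x (i + 2)) (x (i + 3)) := by
      rw [U, if_neg fun k => by have := k.1; rw [hD.2.1] at this; revert this; decide]
      split_ifs
      · rw [cv, cv, add_mul, mul_assoc σ, show i + 1 + 1 = i + 2 by ring, rv_Ra, mul_zero, add_zero]
      · rfl
    rw [U, if_pos hD, U_CK L P κ σ x (Or.inl hD.2.2.1), U_CK L P κ σ x (Or.inr hD.2.2.2), this]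
    simp only [U, if_pos hD, act_add, add_mul]
  by_cases hR : pR κ i
  · obtain ⟨k0, k1, k2, k3, k4, k5, k6⟩ := id hR
    have : rv L P (x (i + 1)) (x (i + 2)) (U L P κ σ x (i + 3)) (U L P κ σ x (i + 4)) (x (i + 5))
        (x (i + 6)) = rv L P (x (i + 1)) (x (i + 2)) (x (i + 3)) (x (i + 4)) (x (i + 5)) (x (i + 6)) := by
      rw [U, if_pos ⟨k3, by rw [add_assoc]; exact k4, by rw [add_assoc]; exact k5,
        by rw [add_assoc]; exact k6⟩, U,
        if_neg fun k => by have := k.1; rw [k4] at this; revert this; decide,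
        show i + 3 + 2 = i + 5 by ring, cv, mul_right_comm, ← mul_assoc, rv_act]
      split_ifs
      · rw [rv_add]
        rw [mul_assoc, show i + 4 + 1 = i + 5 by ring, rv_Gf L P h1, mul_zero]
      · rfl
    rw [U, if_neg hD, if_pos hR, U_CK L P κ σ x (Or.inl k1), U_CK L P κ σ x (Or.inr k2),
      U_CK L P κ σ x (Or.inl k5), U_CK L P κ σ x (Or.inr k6), this]
    simp only [U, if_neg hD, if_pos hR, add_mul, add_assoc]
  · simp only [U, if_neg hD, if_neg hR]

theorem TC_TC (σ σ' : V) (x : ℤ → V) : TC L κ σ' (TC L κ σ x) = TC L κ (σ + σ') x := by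
  funext i
  by_cases h : κ i = 2 ∧ κ (i + 1) = 3
  · have : TC L κ σ x (i + 1) = x (i + 1) :=
      if_neg fun k => by have := k.1; rw [h.2] at this; revert this; decide
    rw [TC, if_pos h, this]
    simp only [TC, if_pos h, add_mul, add_assoc]
  · simp only [TC, if_neg h]

theorem TC_zero (x : ℤ → V) : TC L κ 0 x = x := funext fun i => by simp [TC]

omit [CommRing V] in
theorem TK_TK (f g : V → V) (h : ∀ x, g (f x) = x) (x : ℤ → V) : TK κ g (TK κ f x) = x := by
  funext i
  by_cases k : κ i = 3 <;> simp [TK, k, h]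

/-- the global map -/
def F (y : ℤ → ZMod 4 × V) (i : ℤ) : ZMod 4 × V := ((y i).1, TK (fun j => (y j).1) (fun x => L.ng (L.nt x))
  (TC L (fun j => (y j).1) 1 (U L P (fun j => (y j).1) 1 fun j => (y j).2)) i)

/-- the inverse map -/
def Fi (y : ℤ → ZMod 4 × V) (i : ℤ) : ZMod 4 × V := ((y i).1, U L P (fun j => (y j).1) (-1)
  (TC L (fun j => (y j).1) (-1) (TK (fun j => (y j).1) (fun x => L.nt (L.ng x)) fun j => (y j).2)) i)

theorem Fi_F (h1 : (1 : ZMod M) ≠ 0) (y : ℤ → ZMod 4 × V) : Fi L P (F L P y) = y := by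
  funext i
  simp only [Fi, F]
  rw [TK_TK _ _ _ (fun x => by rw [L.ng_ng, L.nt_nt]), TC_TC, add_neg_cancel, TC_zero, UU L P _ h1,
    add_neg_cancel, U_zero]

theorem F_Fi (h1 : (1 : ZMod M) ≠ 0) (y : ℤ → ZMod 4 × V) : F L P (Fi L P y) = y := by
  funext i
  simp only [Fi, F]
  rw [UU L P _ h1, neg_add_cancel, U_zero, TC_TC, neg_add_cancel, TC_zero,
    TK_TK _ _ _ fun x => by rw [L.nt_nt, L.ng_ng]]

end Pool.Agent.MP_88e1ca_an.Log
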