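import Pool.Agent.MP_88e1ca_an.Log.Up

/-! The register machine, chains of reads, and operations of the next level. -/

set_option autoImplicit false

namespace Pool.Agent.MP_88e1ca_an.Log

variable {H M : ℕ} {V : Type} [CommRing V] (L : Lv H M V) (P : ZMod H → Ins M)

/-- one instruction on data and registers -/
def step (X : (ℤ → V) × (ℤ → V)) (I : Ins M) : (ℤ → V) × (ℤ → V) :=
  (fun j => act L I.i (if I.snd = true ∧ I.b = j then L.cst (cg I.a) * X.2 j else 0) (X.1 j),
   fun j => X.2 j + if I.snd = false ∧ I.b = j then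
     L.cst (cg I.a) * hf L P I.r (X.1 (j + 1)) * (if I.g then X.2 (j + 1) else 1) else 0)

/-- send -/
def snd (b : ZMod M) (i : Fin 3) (a : G0 M) : Ins M := ⟨true, b, i, a, false, 0⟩

/-- read -/
def rd (b : ZMod M) (a : G0 M) (g : Bool) (r : ZMod 10) : Ins M := ⟨false, b, 0, a, g, r⟩

theorem step_snd (b : ZMod M) (i : Fin 3) (a : G0 M) (A m : ℤ → V) : step L P (A, m) (snd b i a) =
    (fun j : ℤ => if b = j then act L i (L.cst (cg a) * m j) (A j) else A j, m) := by
  refine Prod.ext (funext fun j => ?_) (funext fun j => by simp [step, snd])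
  by_cases h : b = j <;> simp [step, snd, h, act_zero]

theorem step_rd (b : ZMod M) (a : G0 M) (g : Bool) (r : ZMod 10) (A m : ℤ → V) :
    step L P (A, m) (rd b a g r) = (A, fun j : ℤ => m j + if b = j then
      L.cst (cg a) * hf L P r (A (j + 1)) * (if g then m (j + 1) else 1) else 0) := by
  refine Prod.ext (funext fun j => ?_) (funext fun j => ?_) <;> simp [step, rd, act_zero]

theorem cg_neg (a : G0 M) : (cg (-a) : G H M) = -cg a := by simp [cg]

theorem cg_one : (cg (1 : G0 M) : G H M) = 1 := by
  simp only [cg, Prod.fst_one, Int.cast_one]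
  rfl

/-- the product of a chain of reads -/
def pr : List (ZMod 10) → (ℤ → V) → ℤ → V
  | [], _, _ => 1
  | r :: l, A, j => hf L P r (A (j + 1)) * pr l A (j + 1)

/-- add the product of a chain to the register -/
def Ad : ZMod M → G0 M → List (ZMod 10) → List (Ins M)
  | b, a, [] => [rd b a false 0]
  | b, a, r :: l => rd b (-1) true r :: Ad (b + 1) a l ++ rd b 1 true r :: Ad (b + 1) (-a) l

theorem run_Ad (h1 : (1 : ZMod M) ≠ 0) (l : List (ZMod 10)) (b : ZMod M) (a : G0 M) (A m : ℤ → V) :
    (Ad b a l).foldl (step L P) (A, m) =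
      (A, fun j : ℤ => m j + if b = j then L.cst (cg a) * pr L P l A j else 0) := by
  induction l generalizing b a m with
  | nil => simp [Ad, step_rd, pr, hf]
  | cons r l ih =>
    simp only [Ad, List.foldl_cons, List.foldl_append, step_rd, ih]
    refine Prod.ext rfl (funext fun j => ?_)
    by_cases h : b = j
    · simp [h, h1, cg_neg, cg_one, pr]
      ring
    · by_cases k : b + 1 = j <;> simp [h, k, cg_neg]

theorem pr_congr (l : List (ZMod 10)) {A A' : ℤ → V} (j : ℤ)
    (h : ∀ k : ℕ, 1 ≤ k → k ≤ l.length → A' (j + k) = A (j + k)) : pr L P l A' j = pr L P l A j := by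
  induction l generalizing j with
  | nil => rfl
  | cons r l ih =>
    have := h 1 le_rfl (by simp)
    rw [pr, pr, ih _ fun k k1 k2 => ?_, show A' (j + 1) = A (j + 1) from this]
    have := h (k + 1) (by omega) (by simpa using k2)
    rwa [show j + (k + 1 : ℕ) = j + 1 + k by push_cast; ring] at this

/-- act by the product of a chain -/
def ch (b : ZMod M) (i : Fin 3) (a : G0 M) (l : List (ZMod 10)) : List (Ins M) :=
  snd b i (-1) :: Ad b a l ++ snd b i 1 :: Ad b (-a) l

theorem run_ch (h1 : (1 : ZMod M) ≠ 0) (b : ZMod M) (i : Fin 3) (a : G0 M) (l : List (ZMod 10))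
    (hl : l.length < M) (A m : ℤ → V) : (ch b i a l).foldl (step L P) (A, m) =
      (fun j : ℤ => if b = j then act L i (L.cst (cg a) * pr L P l A j) (A j) else A j, m) := by
  have k : ∀ (f A : ℤ → V) (j : ℤ), b = j →
      pr L P l (fun j : ℤ => if b = j then f j else A j) j = pr L P l A j := fun f A j h =>
    pr_congr L P l j fun k k1 k2 => if_neg fun e => by
      rw [h, Int.cast_add, left_eq_add, Int.cast_natCast, ZMod.natCast_eq_zero_iff] at e
      have := Nat.le_of_dvd k1 e
      omega
  simp only [ch, List.foldl_cons, List.foldl_append, step_snd, run_Ad L P h1]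
  refine Prod.ext (funext fun j => ?_) (funext fun j => ?_) <;> by_cases h : b = j
  · simp only [if_pos h, k _ _ j h, act_add, cg_neg, cg_one]
    simp
  · simp only [if_neg h]
  · simp only [if_pos h, k _ _ j h, cg_neg]
    simp
  · simp only [if_neg h, add_zero]

theorem pr_append (l l' : List (ZMod 10)) (A : ℤ → V) (j : ℤ) :
    pr L P (l ++ l') A j = pr L P l A j * pr L P l' A (j + l.length) := by
  induction l generalizing j with
  | nil => simp [pr]
  | cons r l ih => simp [pr, ih, mul_assoc, add_assoc, add_comm (1 : ℤ)]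

theorem pr_ofFn (n : ℕ) (f : Fin n → ZMod 10) (A : ℤ → V) (j : ℤ) :
    pr L P (List.ofFn f) A j = ∏ q, hf L P (f q) (A (j + 1 + (q : ℕ))) := by
  induction n generalizing j with
  | zero => simp [pr]
  | succ n ih =>
    have e : ∀ x : ℤ, j + 1 + (x + 1) = j + 1 + 1 + x := fun x => by ring
    simp [pr, ih, Fin.prod_univ_succ, e]

theorem pr_zero (n : ℕ) (A : ℤ → V) (j : ℤ) : pr L P (List.replicate n 0) A j = 1 := by
  induction n generalizing j with
  | zero => rfl
  | succ n ih => simp [List.replicate_succ, pr, ih, hf]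

theorem hf_two (x : V) : hf L P 2 x = zz L x := rfl

theorem pr_two (n : ℕ) (A : ℤ → V) (j : ℤ) : pr L P (List.replicate n 2) A j =
    if ∀ k : ℕ, k < n → L.val (A (j + 1 + k)) = 0 then 1 else 0 := by
  induction n generalizing j with
  | zero => simp [pr]
  | succ n ih =>
    simp only [List.replicate_succ, pr, ih, hf_two, zz, Nat.forall_lt_succ_left]
    have e : ∀ x : ℤ, j + 1 + (x + 1) = j + 1 + 1 + x := fun x => by ring
    by_cases h : L.val (A (j + 1)) = 0 <;> simp [h, e]

variable (D : ℕ)

/-- the reads of the pieces -/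
def split (r : ZMod 10) (p q : Fin (D + 1)) : ZMod 10 :=
  if r = 0 then 0 else if r = 1 then (if q = p then 1 else 0) else if r = 2 then 2 else
    if q = Fin.last D then r else 0

theorem hf_up (r : ZMod 10) (S : Fin (D + 1) → V) (p : Fin (D + 1)) :
    hf (up L D) P r S p = ∏ q, hf L P (split D r p q) (S q) := by
  have h0 : ∀ x, hf L P 0 x = 1 := fun _ => rfl
  have h1 : ∀ x, hf L P 1 x = x := fun _ => rfl
  have hi : ∀ (c : Prop) [Decidable c] r x,
      hf L P (if c then r else 0) x = if c then hf L P r x else 1 := by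
    intros
    split_ifs <;> rfl
  unfold split
  rw [hf]
  split_ifs with k0 k1 k2
  · simp [h0]
  · simp [hi, h1]
  · simp only [hf_two, zz, up_val]
    split_ifs with k
    · simp [k]
    · push Not at k
      obtain ⟨q, hq⟩ := k
      exact (Finset.prod_eq_zero (Finset.mem_univ q) (if_neg hq)).symm
  · simp only [hi, Finset.prod_ite_eq', Finset.mem_univ, if_true]
    rw [hf, if_neg k0, if_neg k1, if_neg k2]
    rfl

/-- the pieces in a row -/
def flat (S : ℤ → Fin (D + 1) → V) (j : ℤ) : V :=
  S (j / (D + 1)) ⟨(j % (D + 1)).toNat, by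
    have := Int.emod_lt_of_pos j (show (0 : ℤ) < D + 1 by omega)
    omega⟩

omit [CommRing V] in
theorem flat_eq (S : ℤ → Fin (D + 1) → V) (J : ℤ) (p : Fin (D + 1)) :
    flat D S ((D + 1) * J + (p : ℕ)) = S J p := by
  have h : ((p : ℕ) : ℤ) < D + 1 := by exact_mod_cast p.2
  have h1 : ((D + 1) * J + (p : ℕ)) / (D + 1) = J := by
    rw [add_comm, Int.add_mul_ediv_left _ _ (by omega), Int.ediv_eq_zero_of_lt (by omega) h, zero_add]
  have h2 : ((D + 1) * J + (p : ℕ)) % (D + 1) = (p : ℕ) := by
    rw [add_comm, Int.add_mul_emod_self_left, Int.emod_eq_of_lt (by omega) h]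
  simp only [flat, h1, h2, Int.toNat_natCast]

theorem pieces (j : ℤ) : ∃ (J : ℤ) (p : Fin (D + 1)), j = (D + 1) * J + (p : ℕ) := by
  have := Int.emod_lt_of_pos j (show (0 : ℤ) < D + 1 by omega)
  have h := Int.emod_nonneg j (show (D + 1 : ℤ) ≠ 0 by omega)
  refine ⟨j / (D + 1), ⟨(j % (D + 1)).toNat, by omega⟩, ?_⟩
  simp only [Int.toNat_of_nonneg h, Int.mul_ediv_add_emod]

theorem type_eq (c J : ℤ) (p q : Fin (D + 1)) (h0 : c % 8 = c) :
    (((D + 1) * c + (p : ℕ) : ℤ) : ZMod (8 * (D + 1))) = (((D + 1) * J + (q : ℕ) : ℤ) : ZMod _) ↔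
      J % 8 = c ∧ q = p := by
  rw [ZMod.intCast_eq_intCast_iff_dvd_sub]
  constructor
  · rintro ⟨t, ht⟩
    have h := (flat_eq D (fun J q => (J, q)) J q).symm.trans
      ((congrArg _ (by push_cast at ht; linarith)).trans (flat_eq D (fun J q => (J, q)) (c + 8 * t) p))
    exact ⟨by have := congrArg Prod.fst h; simp only at this; omega, congrArg Prod.snd h⟩
  · rintro ⟨h, rfl⟩
    refine ⟨J / 8, ?_⟩
    push_cast
    rw [← h]
    linear_combination (-(D + 1 : ℤ)) * Int.mul_ediv_add_emod J 8

theorem pr_blocks (p : Fin (D + 1)) (rs : List (ZMod 10)) (S : ℤ → Fin (D + 1) → V) (J : ℤ) :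
    pr L P (rs.flatMap fun r => List.ofFn (split D r p)) (flat D S) ((D + 1) * J + D) =
      pr (up L D) P rs S J p := by
  induction rs generalizing J with
  | nil => rfl
  | cons r rs ih =>
    rw [List.flatMap_cons, pr_append, pr_ofFn, List.length_ofFn, pr, Pi.mul_apply, hf_up, ← ih]
    congr 1
    · refine Finset.prod_congr rfl fun q _ => ?_
      rw [← flat_eq D S]
      congr 2
      ring
    · congr 1
      push_cast
      ring

/-- a chain that acts on one piece -/
def pc (c : ℤ) (p : Fin (D + 1)) (i : Fin 3) (a : G0 (8 * (D + 1))) (o : ZMod 10) (p' : Fin (D + 1))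
    (rs : List (ZMod 10)) : List (Ins (8 * (D + 1))) :=
  ch (((D + 1) * c + (p : ℕ) : ℤ) : ZMod _) i a
    (List.replicate (D - p) o ++ rs.flatMap fun r => List.ofFn (split D r p'))

/-- the work on one piece -/
def body (c : ℤ) (i : Fin 3) (a : G0 (8 * (D + 1))) (rs : List (ZMod 10)) (p : Fin (D + 1)) :
    List (Ins (8 * (D + 1))) :=
  if i = 0 then pc D c p 0 a 0 p rs else if i = 1 then pc D c p 1 a 0 (Fin.last D) rs else
    pc D c p 1 a 0 (Fin.last D) rs ++ pc D c p 1 a 2 (Fin.last D) rs ++ pc D c p 2 a 2 (Fin.last D) rs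

/-- an operation on the cells of class `c` -/
def Op (c : ℤ) (i : Fin 3) (a : G0 M) (rs : List (ZMod 10)) (S : ℤ → V) (J : ℤ) : V :=
  if J % 8 = c then act L i (L.cst (cg a) * pr L P rs S J) (S J) else S J

theorem one_ne : (1 : ZMod (8 * (D + 1))) ≠ 0 := fun h => by
  have := Nat.le_of_dvd one_pos ((ZMod.natCast_eq_zero_iff 1 _).1 (by simpa using h))
  omega

variable (L : Lv H (8 * (D + 1)) V) (P : ZMod H → Ins (8 * (D + 1)))

theorem run_pc {c : ℤ} (hc : c % 8 = c) (p : Fin (D + 1)) (i : Fin 3) (a : G0 (8 * (D + 1)))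
    (z : Bool) (p' : Fin (D + 1)) {rs : List (ZMod 10)} (hr : rs.length ≤ 7)
    (S : ℤ → Fin (D + 1) → V) (m : ℤ → V) :
    (pc D c p i a (if z then 2 else 0) p' rs).foldl (step L P) (flat D S, m) =
      (flat D fun J q => if J % 8 = c ∧ q = p then act L i (L.cst (cg a) *
        ((if z → ∀ q, p < q → L.val (S J q) = 0 then 1 else 0) * pr (up L D) P rs S J p')) (S J q)
        else S J q, m) := by
  have hp := p.2
  rw [pc, run_ch L P (one_ne D) _ _ _ _ (by
    simp only [List.length_append, List.length_replicate, List.length_flatMap, List.length_ofFn,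
      List.map_const', List.sum_replicate, smul_eq_mul]
    nlinarith [Nat.sub_le D p])]
  refine Prod.ext (funext fun j => ?_) rfl
  obtain ⟨J, q, rfl⟩ := pieces D j
  simp only [type_eq D c J p q hc, flat_eq]
  by_cases h : J % 8 = c ∧ q = p
  · rw [if_pos h, if_pos h]
    obtain ⟨h, rfl⟩ := h
    rw [pr_append, List.length_replicate,
      show ((D + 1) * J + (q : ℕ) + (D - q : ℕ) : ℤ) = (D + 1) * J + D by
        rw [Nat.cast_sub (by omega)]; ring, pr_blocks]
    cases z
    · simp [pr_zero]
    · rw [if_pos rfl, pr_two]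
      congr 3
      refine if_congr ⟨fun e _ r hr => ?_, fun k e he => ?_⟩ rfl rfl
      · have := r.2
        rw [Fin.lt_def] at hr
        rw [← e (r - q - 1) (by omega), ← flat_eq D S]
        congr 2
        rw [Nat.cast_sub (by omega), Nat.cast_sub (by omega)]
        push_cast
        ring
      · rw [← k rfl ⟨q + 1 + e, by omega⟩ (by rw [Fin.lt_def]; simp only; omega), ← flat_eq D S]
        congr 2
        push_cast
        ring
  · rw [if_neg h, if_neg h]

theorem pr_class {c : ℤ} {rs : List (ZMod 10)} (hr : rs.length ≤ 7) {W : Type} [CommRing W]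
    (L : Lv H M W) (P : ZMod H → Ins M) {S S' : ℤ → W} (h : ∀ J, J % 8 ≠ c → S' J = S J) {J : ℤ}
    (hJ : J % 8 = c) : pr L P rs S' J = pr L P rs S J :=
  pr_congr L P rs J fun k _ _ => h _ (by omega)

theorem run_body {c : ℤ} (hc : c % 8 = c) (i : Fin 3) (a : G0 (8 * (D + 1))) {rs : List (ZMod 10)}
    (hr : rs.length ≤ 7) (p : Fin (D + 1)) (S : ℤ → Fin (D + 1) → V) (m : ℤ → V) :
    (body D c i a rs p).foldl (step L P) (flat D S, m) =
      (flat D fun J q => if q = p then Op (up L D) P c i a rs S J q else S J q, m) := by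
  have e0 := fun i p' => run_pc D L P hc p i a false p' hr
  have e2 := fun i p' => run_pc D L P hc p i a true p' hr
  simp only [Bool.false_eq_true, if_false, if_true, false_imp_iff, one_mul, true_imp_iff] at e0 e2
  have k1 : ∀ (g S : ℤ → Fin (D + 1) → V) (J : ℤ), J % 8 = c → pr (up L D) P rs
      (fun J q => if J % 8 = c ∧ q = p then g J q else S J q) J = pr (up L D) P rs S J :=
    fun g S J hJ => pr_class hr _ P (fun J h => funext fun q => if_neg fun e => h e.1) hJ
  have k2 : ∀ (g S : Fin (D + 1) → V), (∀ q, p < q → L.val (if q = p then g q else S q) = 0) ↔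
      ∀ q, p < q → L.val (S q) = 0 := fun g S =>
    forall₂_congr fun q hq => by rw [if_neg hq.ne']
  unfold body
  split_ifs with h0 h1 <;> simp only [List.foldl_append, e0, e2] <;> congr 2 <;> funext J q <;>
    by_cases hq : q = p <;> by_cases hJ : J % 8 = c <;> try simp only [Op, hq, hJ, and_self,
      if_true, if_false, and_false, false_and, and_true]
  · simp [h0, act, up]
  · subst h1
    simp only [act, up]
    split_ifs <;> first | rfl | contradiction
  · obtain rfl : i = 2 := by omega
    simp only [k1 _ _ J hJ, true_and, k2]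
    have e : (L.last (L.cst (cg a) * pr (up L D) P rs S J (Fin.last D))).2.2.2 =
      ((up L D).last ((up L D).cst (cg a) * pr (up L D) P rs S J)).2.2.2 := rfl
    by_cases k : ∀ q, p < q → L.val (S J q) = 0
    · simp only [if_pos k, one_mul, act, e]
      split_ifs <;> first | contradiction | rfl | skip
      rw [L.nt_nt]
      exact (if_pos k).symm
    · simp only [if_neg k, zero_mul, mul_zero, act_zero]
      simp only [act, e]
      split_ifs <;> first | contradiction | rfl | skip
      exact (if_neg k).symm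

theorem run_op {c : ℤ} (hc : c % 8 = c) (i : Fin 3) (a : G0 (8 * (D + 1))) {rs : List (ZMod 10)}
    (hr : rs.length ≤ 7) (S : ℤ → Fin (D + 1) → V) (m : ℤ → V) :
    ((List.finRange (D + 1)).flatMap (body D c i a rs)).foldl (step L P) (flat D S, m) =
      (flat D (Op (up L D) P c i a rs S), m) := by
  have key : ∀ l : List (Fin (D + 1)), l.Pairwise (· < ·) → ∀ S : ℤ → Fin (D + 1) → V,
      (l.flatMap (body D c i a rs)).foldl (step L P) (flat D S, m) =
        (flat D fun J q => if q ∈ l then Op (up L D) P c i a rs S J q else S J q, m) := by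
    intro l hl
    induction l with
    | nil => simp
    | cons p l ih =>
      intro S
      obtain ⟨h1, h2⟩ := List.pairwise_cons.1 hl
      rw [List.flatMap_cons, List.foldl_append, run_body D L P hc i a hr, ih h2]
      congr 2
      funext J q
      by_cases hq : q ∈ l
      · have hp := h1 q hq
        simp only [hq, if_true, List.mem_cons, or_true, Op]
        split_ifs with hJ
        · rw [pr_class hr _ P (S := S) (fun J h => funext fun q => by simp [h]) hJ]
          simp only [act, up]
          split_ifs <;> simp only [Pi.add_apply, ngv, if_neg hp.ne']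
          exact if_congr (forall₂_congr fun r hr => by rw [if_neg (hp.trans hr).ne']) rfl rfl
        · simp
      · simp [hq]
  simpa using key _ (List.pairwise_lt_finRange _) S

end Pool.Agent.MP_88e1ca_an.Log
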