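import Pool.Agent.MP_88e1ca_an.Log.B

/-! The rule is a composition of operations; the program. -/

set_option autoImplicit false

namespace Pool.Agent.MP_88e1ca_an.Log

/-- descriptions of operations -/
abbrev Od (M : ℕ) := ℤ × Fin 3 × G0 M × List (ZMod 10)

variable {H M : ℕ} {V : Type} [CommRing V] (L : Lv H M V) (P : ZMod H → Ins M)

/-- apply an operation -/
def ap (S : ℤ → V) (o : Od M) : ℤ → V := Op L P o.1 o.2.1 o.2.2.1 o.2.2.2 S

/-- data -/
def dph (c : ℤ) : List (Od M) :=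
  [(c, 0, 1, [1, eC 0, 2]), (c, 1, 1, [1, eC 1, 2]), (c, 2, 1, [1, eC 2, 2])]

/-- one read function -/
def rnd (c : ℤ) (r : ZMod 10) : List (Od M) :=
  [(c + 1, 0, 1, [0, 0, 0, 4]), (c + 1, 0, -(0, r, 0, 0), []), (c, 0, 1, [3, 2, r, 1, 5, 2]),
    (c, 0, 1, [3, 2, r, 0, 6, 2]), (c + 1, 0, (0, r, 0, 0), []), (c + 1, 0, -1, [0, 0, 0, 4])]

/-- clocks -/
def tph : List (Od M) := [(2, 0, (1, 0), [2]), (6, 0, (1, 0), [2]), (3, 1, 1, []), (7, 1, 1, []),
  (3, 2, 1, []), (7, 2, 1, [])]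

/-- all operations -/
def ops : List (Od M) := dph 0 ++ dph 4 ++ (List.finRange 10).flatMap (rnd 1) ++
  (List.finRange 10).flatMap (rnd 5) ++ tph

theorem hf_eC (i : Fin 3) (x : V) :
    hf L P (eC i) x = if (P (L.last x).1).i = i then L.cst (Ra P (L.last x)) else 0 := by
  have h : ∀ i : Fin 3, eC i ≠ 0 ∧ eC i ≠ 1 ∧ eC i ≠ 2 ∧ eC i ≠ 3 ∧ eC i ≠ 4 ∧
    ¬ (eC i = 5 ∨ eC i = 6) := by decide
  have k : ∀ i j : Fin 3, eC i = eC j ↔ i = j := by decide
  obtain ⟨h0, h1, h2, h3, h4, h5⟩ := h i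
  simp only [hf, lf, if_neg h0, if_neg h1, if_neg h2, if_neg h3, if_neg h4, if_neg h5, k]
  split_ifs
  exacts [rfl, map_zero _]

theorem hf_0 (x : V) : hf L P 0 x = 1 := rfl

theorem hf_1 (x : V) : hf L P 1 x = x := rfl

theorem hf_3 (x : V) : hf L P 3 x = L.cst (if (L.last x).1 = 0 ∧ (L.last x).2.1 = 0 ∧
    (L.last x).2.2.1 = -1 then 1 else 0) := rfl

theorem hf_4 (x : V) :
    hf L P 4 x = L.cst (-(L.last x).1, (P (L.last x).1).r, -(L.last x).2.2.1, 0) := rfl

theorem hf_5 (x : V) : hf L P 5 x = L.cst (Gf P true (L.last x)) := rfl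

theorem hf_6 (x : V) : hf L P 6 x = L.cst (Gf P false (L.last x)) := rfl

theorem act_0 (v x : V) : act L 0 v x = x + v := rfl

theorem run_dph (c : ℤ) (S : ℤ → V) : (dph c).foldl (ap L P) S = fun J => if J % 8 = c then
    act L (P (L.last (S (J + 2))).1).i (cv L P (S (J + 1)) (S (J + 2)) (S (J + 3))) (S J) else S J := by
  funext J
  by_cases h : J % 8 = c
  · have h1 : ¬ (J + 1) % 8 = c := by omega
    have h2 : ¬ (J + 2) % 8 = c := by omega
    have h3 : ¬ (J + 3) % 8 = c := by omega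
    have e2 : J + 1 + 1 = J + 2 := by ring
    have e3 : J + 2 + 1 = J + 3 := by ring
    simp only [dph, List.foldl, ap, Op, pr, e2, e3, h, h1, h2, h3, if_true, if_false, hf_eC, hf_1,
      hf_two, cg_one, map_one, one_mul, mul_one, cv]
    generalize (P (L.last (S (J + 2))).1).i = i
    fin_cases i <;> simp [act_zero, mul_assoc]
  · simp only [dph, List.foldl, ap, Op, h, if_false]

theorem run_rnd (c : ℤ) (hc : 0 ≤ c ∧ c < 7) (r : ZMod 10) (S : ℤ → V) :
    (rnd c r).foldl (ap L P) S = fun J => S J + if J % 8 = c then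
      (if (L.last (S (J + 1))).2.1 + (P (L.last (S (J + 5))).1).r = r then rv L P (S (J + 1))
        (S (J + 2)) (S (J + 3)) (S (J + 4)) (S (J + 5)) (S (J + 6)) else 0) else 0 := by
  funext J
  have e2 : J + 1 + 1 = J + 2 := by ring
  have e3 : J + 2 + 1 = J + 3 := by ring
  have e4 : J + 3 + 1 = J + 4 := by ring
  have e5 : J + 4 + 1 = J + 5 := by ring
  have e6 : J + 5 + 1 = J + 6 := by ring
  by_cases h : J % 8 = c
  · have k : ∀ e : ℤ, 1 ≤ e → e ≤ 6 → ¬ (J + e) % 8 = c := fun e _ _ => by omega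
    have k' : ∀ e : ℤ, 2 ≤ e → e ≤ 6 → ¬ (J + e) % 8 = c + 1 := fun e _ _ => by omega
    have h0 : ¬ J % 8 = c + 1 := by omega
    have h1 : (J + 1) % 8 = c + 1 := by omega
    simp only [rnd, List.foldl, ap, Op, pr, e2, e3, e4, e5, e6, if_pos h, if_neg h0, if_pos h1,
      if_neg (k 1 (by omega) (by omega)), if_neg (k 2 (by omega) (by omega)),
      if_neg (k 3 (by omega) (by omega)), if_neg (k 4 (by omega) (by omega)),
      if_neg (k 5 (by omega) (by omega)), if_neg (k 6 (by omega) (by omega)),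
      if_neg (k' 2 (by omega) (by omega)), if_neg (k' 3 (by omega) (by omega)),
      if_neg (k' 4 (by omega) (by omega)), if_neg (k' 5 (by omega) (by omega)),
      if_neg (k' 6 (by omega) (by omega)), act_0, hf_0, hf_1, hf_two, hf_3, hf_4, hf_5, hf_6,
      cg_one, cg_neg, map_one, one_mul, mul_one, rv, map_add, map_neg, L.last_cst]
    simp only [cg, Prod.fst_add, Prod.snd_add, Prod.fst_neg, Prod.snd_neg, Int.cast_zero, neg_zero,
      add_zero, add_neg_eq_zero]
    have : (L.last (S (J + 1))).2.2.1 + -(L.last (S (J + 5))).2.2.1 = -1 ↔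
        (L.last (S (J + 1))).2.2.1 + 1 = (L.last (S (J + 5))).2.2.1 :=
      ⟨fun h => by linear_combination h, fun h => by linear_combination h⟩
    simp only [this]
    by_cases q1 : (L.last (S (J + 1))).2.1 + (P (L.last (S (J + 5))).1).r = r
    · by_cases q2 : (L.last (S (J + 1))).1 = (L.last (S (J + 5))).1 ∧
          (L.last (S (J + 1))).2.2.1 + 1 = (L.last (S (J + 5))).2.2.1
      · rw [if_pos q1, if_pos q2, if_pos ⟨q2.1, q1, q2.2⟩, q1, map_one]
        ring
      · rw [if_pos q1, if_neg q2, if_neg fun q => q2 ⟨q.1, q.2.2⟩, map_zero]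
        ring
    · rw [if_neg q1, if_neg fun q => q1 q.2.1, map_zero]
      ring
  · by_cases h1 : J % 8 = c + 1
    · have h2 : ¬ (J + 4) % 8 = c := by omega
      have h3 : ¬ (J + 4) % 8 = c + 1 := by omega
      simp only [rnd, List.foldl, ap, Op, pr, e2, e3, e4, if_neg h, if_pos h1, if_neg h2, if_neg h3,
        act_0, hf_0, cg_neg, cg_one, map_neg, map_one]
      ring
    · simp only [rnd, List.foldl, ap, Op, if_neg h, if_neg h1, add_zero]

theorem run_rph (c : ℤ) (hc : 0 ≤ c ∧ c < 7) (S : ℤ → V) :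
    ((List.finRange 10).flatMap (rnd c)).foldl (ap L P) S = fun J => S J + if J % 8 = c then
      rv L P (S (J + 1)) (S (J + 2)) (S (J + 3)) (S (J + 4)) (S (J + 5)) (S (J + 6)) else 0 := by
  have key : ∀ (l : List (ZMod 10)) (S : ℤ → V), (l.flatMap (rnd c)).foldl (ap L P) S = fun J =>
      S J + if J % 8 = c then (l.map fun r => if (L.last (S (J + 1))).2.1 +
        (P (L.last (S (J + 5))).1).r = r then rv L P (S (J + 1)) (S (J + 2)) (S (J + 3)) (S (J + 4))
          (S (J + 5)) (S (J + 6)) else 0).sum else 0 := by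
    intro l
    induction l with
    | nil => simp
    | cons r l ih =>
      intro S
      rw [List.flatMap_cons, List.foldl_append, run_rnd L P c hc, ih]
      funext J
      by_cases h : J % 8 = c
      · have k : ∀ e : ℤ, 1 ≤ e → e ≤ 6 → ¬ (J + e) % 8 = c := fun e _ _ => by omega
        simp only [if_pos h, if_neg (k 1 (by omega) (by omega)), if_neg (k 2 (by omega) (by omega)),
          if_neg (k 3 (by omega) (by omega)), if_neg (k 4 (by omega) (by omega)),
          if_neg (k 5 (by omega) (by omega)), if_neg (k 6 (by omega) (by omega)), add_zero,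
          List.map_cons, List.sum_cons, add_assoc]
      · simp only [if_neg h, add_zero]
  rw [key (List.finRange 10)]
  funext J
  congr 2
  exact (Fin.sum_univ_def _).symm.trans ((Finset.sum_ite_eq _ _ _).trans (if_pos (Finset.mem_univ _)))

theorem kk (J : ℤ) : ((J : ZMod 4) = 0 ↔ J % 4 = 0) ∧ ((J : ZMod 4) = 1 ↔ J % 4 = 1) ∧
    ((J : ZMod 4) = 2 ↔ J % 4 = 2) ∧ ((J : ZMod 4) = 3 ↔ J % 4 = 3) :=
  ⟨by simpa using ZMod.intCast_eq_intCast_iff' J 0 4,
    by simpa using ZMod.intCast_eq_intCast_iff' J 1 4,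
    by simpa using ZMod.intCast_eq_intCast_iff' J 2 4,
    by simpa using ZMod.intCast_eq_intCast_iff' J 3 4⟩

theorem pD_iff (J : ℤ) : pD (fun J : ℤ => (J : ZMod 4)) J ↔ J % 4 = 0 := by
  simp only [pD, kk]
  omega

theorem pR_iff (J : ℤ) : pR (fun J : ℤ => (J : ZMod 4)) J ↔ J % 4 = 1 := by
  simp only [pR, kk]
  omega

theorem run_U (h1 : (1 : ZMod M) ≠ 0) (S : ℤ → V) :
    (dph 0 ++ dph 4 ++ (List.finRange 10).flatMap (rnd 1) ++ (List.finRange 10).flatMap
      (rnd 5)).foldl (ap L P) S = U L P (fun J : ℤ => (J : ZMod 4)) 1 S := by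
  simp only [List.foldl_append, run_dph, run_rph L P 1 (by omega), run_rph L P 5 (by omega)]
  funext J
  have e : ∀ a b : ℤ, J + a + b = J + (a + b) := fun a b => add_assoc _ _ _
  have f : ∀ a : ℤ, (J + a) % 8 = (J % 8 + a) % 8 := fun a => by omega
  simp only [U, pD_iff, pR_iff, one_mul, e, f, show J % 4 = J % 8 % 4 by omega]
  have : J % 8 = 0 ∨ J % 8 = 1 ∨ J % 8 = 2 ∨ J % 8 = 3 ∨ J % 8 = 4 ∨ J % 8 = 5 ∨ J % 8 = 6 ∨
    J % 8 = 7 := by omega
  rcases this with h | h | h | h | h | h | h | h <;> norm_num [h]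
  · rw [cv, mul_right_comm, rv_act]
  · rw [cv, mul_right_comm, rv_act, rv_add _ _ _ _ _ _ _ _ _ (rv_Gf L P h1 _ _ _ _ _ _ _)]

theorem run_ops (h1 : (1 : ZMod M) ≠ 0) (S : ℤ → V) (J : ℤ) :
    F L P (fun J : ℤ => ((J : ZMod 4), S J)) J = ((J : ZMod 4), ops.foldl (ap L P) S J) := by
  rw [ops, List.foldl_append, run_U L P h1, F]
  generalize U L P (fun J : ℤ => (J : ZMod 4)) 1 S = S
  congr 1
  have f : (J + 1) % 8 = (J % 8 + 1) % 8 := by omega
  have e : (cg (1, 0) : G H M) = (1, 0) := by simp [cg]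
  have e1 : ∀ x, act L 1 1 x = L.nt x := fun x => by simp [act]
  have e2 : ∀ x, act L 2 1 x = L.ng x := fun x => by simp [act]
  simp only [TK, TC, kk, tph, List.foldl, ap, Op, pr, f, show J % 4 = J % 8 % 4 by omega,
    show (J + 1) % 4 = (J % 8 + 1) % 4 by omega, e, cg_one, map_one, mul_one, one_mul, e1, e2,
    act_0, hf_two]
  have : J % 8 = 0 ∨ J % 8 = 1 ∨ J % 8 = 2 ∨ J % 8 = 3 ∨ J % 8 = 4 ∨ J % 8 = 5 ∨ J % 8 = 6 ∨
    J % 8 = 7 := by omega
  rcases this with h | h | h | h | h | h | h | h <;> norm_num [h]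

/-- the program -/
def prog (D : ℕ) : List (Ins (8 * (D + 1))) :=
  ops.flatMap fun o => (List.finRange (D + 1)).flatMap (body D o.1 o.2.1 o.2.2.1 o.2.2.2)

theorem run_prog (D : ℕ) (L : Lv H (8 * (D + 1)) V) (P : ZMod H → Ins (8 * (D + 1)))
    (S : ℤ → Fin (D + 1) → V) (m : ℤ → V) : (prog D).foldl (step L P) (flat D S, m) =
      (flat D fun J => (F (up L D) P (fun J : ℤ => ((J : ZMod 4), S J)) J).2, m) := by
  have key : ∀ l : List (Od (8 * (D + 1))), (∀ o ∈ l, o.1 % 8 = o.1 ∧ o.2.2.2.length ≤ 7) →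
      ∀ S, (l.flatMap fun o => (List.finRange (D + 1)).flatMap (body D o.1 o.2.1 o.2.2.1
        o.2.2.2)).foldl (step L P) (flat D S, m) = (flat D (l.foldl (ap (up L D) P) S), m) := by
    intro l hl
    induction l with
    | nil => exact fun _ => rfl
    | cons o l ih =>
      intro S
      have := hl o List.mem_cons_self
      rw [List.flatMap_cons, List.foldl_append, run_op D L P this.1 _ _ this.2,
        ih fun o ho => hl o (List.mem_cons_of_mem _ ho)]
      rfl
  simp only [run_ops _ P (one_ne D)]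
  refine key _ (fun o ho => ?_) S
  simp only [ops, dph, rnd, tph, List.mem_append, List.mem_flatMap, List.mem_cons,
    List.not_mem_nil, or_false] at ho
  rcases ho with ((((h | h | h) | h | h | h) | ⟨r, -, h | h | h | h | h | h⟩) |
    ⟨r, -, h | h | h | h | h | h⟩) | h | h | h | h | h | h <;> subst h <;> simp

end Pool.Agent.MP_88e1ca_an.Log
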