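import Pool.Agent.MP_88e1ca_an.Log.E

/-! The radius of the powers and the order. -/

set_option autoImplicit false

namespace Pool.Agent.MP_88e1ca_an.Log

variable {H D : ℕ} {P : ZMod H → Ins (8 * (D + 1))}
  (hP : ((List.range H).map fun i : ℕ => P i) = prog D)
include hP

theorem sim {V : Type} [CommRing V] {L : Lv H (8 * (D + 1)) V} {a b e s lo hi q : ℤ}
    {y : ℤ → ℤ → ZMod 4 × V} (h : Dia L P a b y) (h1 : a ≤ e + 4 * lo) (h2 : e + 4 * hi + 3 ≤ b)
    (g : Good L e (q * H * L.N) (y s) lo hi) :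
    (∀ I J, lo ≤ (D + 1) * I → (D + 1) * J + D + H ≤ hi → Dia (up L D) P I J fun u J =>
      ((J : ZMod 4), fun p => (y (s + u * (H * L.N)) (e + 4 * ((D + 1) * J + (p : ℕ)))).2)) ∧
    ∀ u j, lo ≤ j → j + H ≤ hi →
      (y (s + u * (H * L.N)) (e + 4 * j + 1)).2 = (y s (e + 4 * j + 1)).2 := by
  have run : ∀ (u : ℤ) (d : ℕ) (j : ℤ), lo ≤ j → j + d ≤ hi →
      (st e (y (s + u * (H * L.N) + d * L.N))).1 j = (((List.range d).map fun i : ℕ => P i).foldl
        (step L P) (st e (y (s + u * (H * L.N))))).1 j ∧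
      (st e (y (s + u * (H * L.N) + d * L.N))).2 j = (((List.range d).map fun i : ℕ => P i).foldl
        (step L P) (st e (y (s + u * (H * L.N))))).2 j := fun u d => by
    induction d with
    | zero => simp
    | succ d ih =>
      intro j j1 j2
      push_cast at j2 ⊢
      have g1 := h.good h1 h2 g (s + u * (H * L.N) + d * L.N)
      rw [show q * H * L.N + (s + u * (H * L.N) + d * L.N - s) = ((q + u) * H + d) * L.N by ring] at g1
      have := h.step h1 h2 g1 j1 (by omega)
      rw [add_mul (d : ℤ), one_mul, ← add_assoc, this.1, this.2, List.range_succ, List.map_append,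
        List.foldl_append]
      simp [step, ih j j1 (by omega), ih (j + 1) (by omega) (by omega)]
  have key : ∀ (u j : ℤ), lo ≤ j → j + H ≤ hi → (y (s + (u + 1) * (H * L.N)) (e + 4 * j)).2 =
      flat D (fun J => (F (up L D) P (fun J : ℤ => ((J : ZMod 4), fun p =>
        (y (s + u * (H * L.N)) (e + 4 * ((D + 1) * J + (p : ℕ)))).2)) J).2) j ∧
      (y (s + (u + 1) * (H * L.N)) (e + 4 * j + 1)).2 = (y (s + u * (H * L.N)) (e + 4 * j + 1)).2 := by
    intro u j j1 j2
    have := run u H j j1 j2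
    rw [hP, show st e (y (s + u * (H * L.N))) = (flat D fun J p => (y (s + u * (H * L.N))
      (e + 4 * ((D + 1) * J + (p : ℕ)))).2, (st e (y (s + u * (H * L.N)))).2) from
        Prod.ext (funext fun j => by
          obtain ⟨J, p, rfl⟩ := pieces D j
          simp only [flat_eq, st]) rfl, run_prog, add_assoc, ← add_one_mul] at this
    exact this
  refine ⟨fun I J k1 k2 u j k3 k4 => Prod.ext rfl (funext fun p => ?_), fun u j k1 k2 => ?_⟩
  · have := p.2
    have k5 : (D + 1 : ℤ) * I ≤ (D + 1) * j := by gcongr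
    have k6 : (D + 1 : ℤ) * j ≤ (D + 1) * J := by gcongr
    exact (key u _ (by omega) (by omega)).1.trans (flat_eq D _ j p)
  · simpa using const_step (fun u : ℤ => (y (s + u * (H * L.N)) (e + 4 * j + 1)).2)
      (fun u => (key u j k1 k2).2) 0 u

/-- the times that are covered -/
def nn (D N : ℕ) : ℕ → ℕ
  | 0 => 2
  | k + 1 => N ^ (D + 1) ^ k

omit hP in
theorem nn_step {N : ℕ} (hN : 2 ≤ N) (k : ℕ) :
    (nn D N (k + 1) : ℤ) + N ≤ nn D (N ^ (D + 1)) k * N := by
  rcases k with _ | k
  · simp [nn, two_mul]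
  · have : 2 ≤ N ^ (D + 1) ^ (k + 1) := hN.trans (Nat.le_self_pow (by positivity) _)
    simp only [nn, ← pow_mul, ← pow_succ']
    zify at this hN
    push_cast
    nlinarith

theorem cone [NeZero H] (k : ℕ) : ∀ (V : Type) [CommRing V] (L : Lv H (8 * (D + 1)) V) (a b s : ℤ)
    (y y' : ℤ → ℤ → ZMod 4 × V), Dia L P a b y → Dia L P a b y' →
    a + 100 * ((D + 1) * (H + 1)) * ((4 * (D + 1)) ^ k - 1) + 14 ≤ b →
    (∀ x, a ≤ x → x ≤ b → y s x = y' s x) → ∀ t, |t - s| ≤ nn D L.N k → y t a = y' t a := by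
  induction k with
  | zero =>
    intro V _ L a b s y y' h h' hb e t ht
    exact h.tri (one_ne D) h' le_rfl e t a le_rfl (by norm_num [nn] at hb ht; omega)
  | succ k ih =>
    intro V _ L a b s y y' h h' hb e t ht
    have hH : (0 : ℤ) < H := by exact_mod_cast NeZero.pos H
    have hN : (2 : ℤ) ≤ L.N := by exact_mod_cast L.two
    have hD : (0 : ℤ) ≤ D := by omega
    obtain ⟨R, hR, hR0, hb⟩ : ∃ R : ℤ, R = 100 * ((D + 1) * (H + 1)) * ((4 * (D + 1)) ^ k - 1) + 14 ∧
        0 ≤ R ∧ a + 4 * ((D + 1) * R) + 40 * ((D + 1) * (H + 1)) ≤ b := by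
      have : (1 : ℤ) ≤ (4 * (D + 1)) ^ k := one_le_pow₀ (by omega)
      refine ⟨_, rfl, by have := sub_nonneg.2 this; positivity, ?_⟩
      rw [pow_succ] at hb
      nlinarith [mul_nonneg hD hH.le, mul_nonneg hD (mul_nonneg hD hH.le), mul_nonneg hD hD]
    simp only [add_assoc, ← hR] at ih
    have hDH : (0 : ℤ) ≤ D * H := by positivity
    have hDR : (0 : ℤ) ≤ (D + 1) * R := by positivity
    have hx : ((D + 1) * (H + 1) : ℤ) = D * H + D + H + 1 := by ring
    by_cases hw : ∀ Z, a + 1 ≤ Z → Z ≤ b - 4 → Open L (y s) Z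
    · obtain ⟨c, T, lo, h1, h2, g⟩ := good L (by omega) hw
      obtain ⟨I, i1, i2⟩ : ∃ I, lo ≤ (D + 1) * I ∧ (D + 1) * I ≤ lo + D := by
        obtain ⟨J, p, hj⟩ := pieces D (lo + D)
        exact ⟨J, by have := p.2; omega, by omega⟩
      obtain ⟨hi, hhi⟩ : ∃ hi, hi = (D + 1) * I + (D + 1) * R + 2 * (D * H) + 4 * D + 5 * H + 6 :=
        ⟨_, rfl⟩
      replace g := g hi (by omega)
      have g' : Good L c T (y' s) lo hi := fun j j1 j2 => by
        rw [← e _ (by omega) (by omega), ← e (c + 4 * j + 1) (by omega) (by omega),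
          ← e (c + 4 * j + 2) (by omega) (by omega), ← e (c + 4 * j + 3) (by omega) (by omega)]
        exact g j j1 j2
      have hHN : (0 : ℤ) < H * L.N := by positivity
      have fw : ∀ (s T u v : ℤ) (d : ℕ), Good L c T (y s) lo hi → Good L c T (y' s) lo hi →
          c + 4 * lo ≤ u → v ≤ c + 4 * hi → (∀ x, u ≤ x → x ≤ v → y s x = y' s x) → d ≤ H * (L.N : ℤ) →
          ∀ x, u ≤ x → x + 7 * H ≤ v → y (s + d) x = y' (s + d) x :=
        fun s T u v d q q' k1 k2 k3 k4 x k5 k6 => by
          have l1 := hh_le hN T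
          have l2 := hh_le hN (T + d)
          have : hh L.N (T + d) - hh L.N T < H + 1 := by
            by_contra c
            nlinarith [l1.1, l2.2]
          exact (h.fwd h' (by omega) (by omega) q q' k1 k2 k3 d x k5 (by omega)).2
      obtain ⟨d, q, d1, hq⟩ : ∃ (d : ℕ) (q : ℤ), (d : ℤ) < H * L.N ∧ T + d = q * H * L.N := by
        have := Int.emod_nonneg (-T) hHN.ne'
        refine ⟨(-T % (H * L.N)).toNat, -(-T / (H * L.N)), ?_, ?_⟩ <;> rw [Int.toNat_of_nonneg this]
        · exact Int.emod_lt_of_pos _ hHN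
        · linarith [Int.emod_add_mul_ediv (-T) (H * L.N)]
      have g0 := h.good (by omega) (by omega) g
      have g0' := h'.good (by omega) (by omega) g'
      have e0 := fw s T _ _ d g g' le_rfl le_rfl (fun x _ _ => e x (by omega) (by omega)) d1.le
      obtain ⟨s1, s2⟩ := sim hP h (s := s + d) (e := c) (lo := lo) (hi := hi) (q := q) (by omega) (by omega)
        (by simpa only [add_sub_cancel_left, hq] using g0 (s + d))
      obtain ⟨s1', s2'⟩ := sim hP h' (s := s + d) (e := c) (lo := lo) (hi := hi) (q := q) (by omega) (by omega)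
        (by simpa only [add_sub_cancel_left, hq] using g0' (s + d))
      have eK : ∀ j t, lo ≤ j → j ≤ hi → y t (c + 4 * j + 3) = y' t (c + 4 * j + 3) := fun j t j1 j2 =>
        (const_step (fun t => y t (c + 4 * j + 3) = y' t (c + 4 * j + 3)) (fun t => by
          have q1 := (g0 t j j1 j2).2.2.2.1
          have q2 := (g0' t j j1 j2).2.2.2.1
          rw [h t _ (by omega) (by omega), h' t _ (by omega) (by omega), F_K L P q1, F_K L P q2]
          simp [Prod.ext_iff, q1, q2, (Function.Involutive.injective L.ng_ng).eq_iff,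
            (Function.Involutive.injective L.nt_nt).eq_iff]) s t).mpr (e _ (by omega) (by omega))
      have eC : ∀ j t, lo ≤ j → j ≤ hi → y t (c + 4 * j + 2) = y' t (c + 4 * j + 2) := fun j t j1 j2 =>
        (const_step (fun t => y t (c + 4 * j + 2) = y' t (c + 4 * j + 2)) (fun t => by
          obtain ⟨-, -, q1, q3, -⟩ := g0 t j j1 j2
          obtain ⟨-, -, q2, q4, -⟩ := g0' t j j1 j2
          have e3 : c + 4 * j + 2 + 1 = c + 4 * j + 3 := by ring
          rw [h t _ (by omega) (by omega), h' t _ (by omega) (by omega), F_C L P q1 (e3 ▸ q3),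
            F_C L P q2 (e3 ▸ q4), e3, eK j t j1 j2]
          simp [Prod.ext_iff, q1, q2]) s t).mpr (e _ (by omega) (by omega))
      refine h.ext (one_ne D) h' (c := c + 4 * ((D + 1) * I)) (by omega)
        (fun x k1 _ => e x k1 (by omega)) (fun t ht => ?_) (4 * D + 5) t ht a le_rfl
        (by push_cast; omega) (by omega)
      obtain ⟨u, v, v1, rfl⟩ : ∃ (u : ℤ) (v : ℕ), (v : ℤ) < H * L.N ∧ t = s + d + u * (H * L.N) + v := by
        have := Int.emod_nonneg (t - s - d) hHN.ne'
        refine ⟨(t - s - d) / (H * L.N), ((t - s - d) % (H * L.N)).toNat, ?_, ?_⟩ <;>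
          rw [Int.toNat_of_nonneg this]
        · exact Int.emod_lt_of_pos _ hHN
        · linarith [Int.emod_add_mul_ediv (t - s - d) (H * L.N)]
      have hu : |u - 0| ≤ nn D (up L D).N k := by
        have := nn_step (D := D) L.two k
        have k0 : (nn D L.N (k + 1) : ℤ) + H * L.N ≤ nn D (up L D).N k * (H * L.N) := by
          change _ ≤ (nn D (L.N ^ (D + 1)) k : ℤ) * _
          nlinarith [(Nat.cast_nonneg _ : (0 : ℤ) ≤ nn D L.N (k + 1))]
        rw [abs_le] at ht ⊢
        constructor <;> by_contra k <;> nlinarith [ht.1, ht.2]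
      intro x k1 k2
      refine fw _ _ _ (c + 4 * ((D + 1) * I) + 7 * H + 6) v (g0 _) (g0' _) (by omega) (by omega)
        (fun x k1 k2 => ?_) v1.le x k1 (by omega)
      obtain ⟨j, hj⟩ : ∃ j, x = c + 4 * j ∨ x = c + 4 * j + 1 ∨ x = c + 4 * j + 2 ∨ x = c + 4 * j + 3 :=
        ⟨(x - c) / 4, by omega⟩
      obtain ⟨q0, q1, -⟩ := g0 (s + d + u * (H * L.N)) j (by omega) (by omega)
      obtain ⟨q2, q3, -⟩ := g0' (s + d + u * (H * L.N)) j (by omega) (by omega)
      rcases hj with rfl | rfl | rfl | rfl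
      · obtain ⟨J, p, rfl⟩ := pieces D j
        have hp := p.2
        have k7 : (D + 1 : ℤ) * I ≤ (D + 1) * J := by
          by_contra c'
          have : J + 1 ≤ I := lt_of_mul_lt_mul_left (not_le.1 c') (by omega)
          have : (D + 1 : ℤ) * (J + 1) ≤ (D + 1) * I := by gcongr
          rw [mul_add] at this
          omega
        have := ih _ (up L D) J (J + R) 0 _ _ (s1 J _ (by omega) (by rw [mul_add]; omega))
          (s1' J _ (by omega) (by rw [mul_add]; omega)) le_rfl (fun i i1 i2 => by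
          simp only [zero_mul, add_zero]
          congr 1
          funext p
          have := p.2
          have k5 : (D + 1 : ℤ) * J ≤ (D + 1) * i := by gcongr
          have k6 : (D + 1 : ℤ) * i ≤ (D + 1) * J + (D + 1) * R := by rw [← mul_add]; gcongr
          rw [e0 _ (by omega) (by omega)]) u hu
        exact Prod.ext (q0.trans q2.symm) (congrFun (Prod.mk.inj this).2 p)
      · refine Prod.ext (q1.trans q3.symm) ?_
        rw [s2 u j (by omega) (by omega), s2' u j (by omega) (by omega), e0 _ (by omega) (by omega)]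
      · exact eC j _ (by omega) (by omega)
      · exact eK j _ (by omega) (by omega)
    · push Not at hw
      obtain ⟨Z, h1, h2, h3⟩ := hw
      have h3' : ¬ Open L (y' s) Z := by
        simpa only [Open, e Z (by omega) (by omega), e (Z + 1) (by omega) (by omega),
          e (Z - 1) (by omega) (by omega), e (Z + 3) (by omega) (by omega),
          e (Z + 3 + 1) (by omega) (by omega)] using h3
      have := (h.cut h1 (by omega) h3 (a + 7 * |t - s|)).tri (one_ne D)
        (h'.cut h1 (by omega) h3' _) (s := s) le_rfl (fun x k1 _ => by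
          split_ifs
          · exact e x k1 (by omega)
          · rfl) t a le_rfl le_rfl
      simpa only [if_pos (show a ≤ Z by omega)] using this

omit hP in
/-- the global map as a permutation -/
def Φ {V : Type} [CommRing V] (L : Lv H (8 * (D + 1)) V) (P : ZMod H → Ins (8 * (D + 1))) :
    Equiv.Perm (ℤ → ZMod 4 × V) := ⟨F L P, Fi L P, Fi_F L P (one_ne D), F_Fi L P (one_ne D)⟩

omit hP in
theorem dia_Φ {V : Type} [CommRing V] (L : Lv H (8 * (D + 1)) V) (x : ℤ → ZMod 4 × V) (a b : ℤ) :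
    Dia L P a b fun t => (Φ L P ^ t) x := fun t j _ _ => by
  show (Φ L P ^ (t + 1)) x j = _
  rw [add_comm, zpow_one_add]
  rfl

theorem radius [NeZero H] {V : Type} [CommRing V] (L : Lv H (8 * (D + 1)) V) (k n : ℕ)
    (hn : n ≤ L.N ^ (D + 1) ^ k) (x x' : ℤ → ZMod 4 × V) (i : ℤ) (e : ∀ j, i ≤ j →
      j ≤ i + 100 * ((D + 1) * (H + 1)) * (4 * (D + 1)) ^ (k + 1) → x j = x' j) :
    (F L P)^[n] x i = (F L P)^[n] x' i := by
  have := cone hP (k + 1) V L i _ 0 _ _ (dia_Φ L x _ _) (dia_Φ L x' _ _) (by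
    have : (1 : ℤ) ≤ (D + 1) * (H + 1) := one_le_mul_of_one_le_of_one_le (by omega) (by omega)
    linarith) e n (by rw [sub_zero, Nat.abs_cast]; exact_mod_cast hn)
  simp only [zpow_natCast, Equiv.Perm.coe_pow] at this
  exact this

theorem order [NeZero H] (n : ℕ) (hn : 1 ≤ n) : ∀ (V : Type) [CommRing V] (L : Lv H (8 * (D + 1)) V),
    ¬ ∀ S : ℤ → V, (F L P)^[n] (fun J : ℤ => ((J : ZMod 4), S J)) = fun J : ℤ => ((J : ZMod 4), S J) := by
  induction n using Nat.strong_induction_on with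
  | _ n ih =>
  intro V _ L h
  have hN : (2 : ℤ) ≤ L.N := by exact_mod_cast L.two
  have key : ∀ S : ℤ → Fin (D + 1) → V, ∃ y : ℤ → ℤ → ZMod 4 × V, (∀ a b, Dia L P a b y) ∧ y n = y 0 ∧
      (∀ lo hi, Good L 0 0 (y 0) lo hi) ∧ ∀ j, (y 0 (0 + 4 * j)).2 = flat D S j := fun S => by
    refine ⟨fun t => (Φ L P ^ t) fun J : ℤ => ((J : ZMod 4), if J % 4 = 0 then flat D S (J / 4) else
      if J % 4 = 2 then L.cst (0, 0, (J / 4 : ℤ), 0) else 0), dia_Φ L _, ?_, fun lo hi j _ _ => ?_,
      fun j => ?_⟩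
    · simp only [zpow_natCast, Equiv.Perm.coe_pow]
      exact h _
    · simp only [zpow_zero, Equiv.Perm.coe_one, id, kk]
      rw [if_neg (by omega), if_pos (by omega), if_neg (by omega), if_neg (by omega), L.last_cst,
        show (0 + 4 * j + 2) / 4 = j by omega, L.val_zero]
      exact ⟨by omega, by omega, by omega, by omega, by simp [hh], rfl, rfl, by simp⟩
    · simp only [zpow_zero, Equiv.Perm.coe_one, id]
      rw [if_pos (by omega), show (0 + 4 * j) / 4 = j by omega]
  obtain ⟨d, rfl⟩ : H * L.N ∣ n := by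
    obtain ⟨y, h1, h2, h3, -⟩ := key 0
    obtain ⟨-, -, -, -, q1, -, -, q2⟩ := (h1 0 3).good le_rfl le_rfl (h3 0 0) n 0 le_rfl le_rfl
    obtain ⟨-, -, -, -, q3, -, -, q4⟩ := h3 0 0 0 le_rfl le_rfl
    rw [h2, q4, Int.zero_emod, zero_add, sub_zero, eq_comm] at q2
    obtain ⟨d, rfl⟩ := Int.natCast_dvd_natCast.1 (Int.dvd_of_emod_eq_zero q2)
    rw [h2, q3, zero_add, sub_zero, Nat.cast_mul, mul_comm (L.N : ℤ), hh_mul hN] at q1
    exact mul_comm d _ ▸ Nat.mul_dvd_mul_right ((ZMod.natCast_eq_zero_iff d H).1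
      (by simpa [hh] using q1.symm)) _
  have hd : 1 ≤ d := Nat.pos_of_mul_pos_left hn
  have hH := NeZero.pos H
  refine ih d (by nlinarith [L.two, Nat.mul_le_mul hH L.two]) hd _ (up L D) fun S => ?_
  obtain ⟨y, h1, h2, h3, h4⟩ := key S
  have k : ∀ u : ℕ, (F (up L D) P)^[u] (fun J : ℤ => ((J : ZMod 4), S J)) = fun J : ℤ => ((J : ZMod 4),
      fun p : Fin (D + 1) => (y (0 + u * (H * L.N)) (0 + 4 * ((D + 1) * J + (p : ℕ)))).2) := fun u => by
    induction u with
    | zero => simp only [Function.iterate_zero, id, Nat.cast_zero, zero_mul, add_zero, h4, flat_eq]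
    | succ u ih =>
      funext J
      rw [Function.iterate_succ_apply', ih, Nat.cast_succ]
      exact ((sim hP (q := 0) (h1 _ _) le_rfl le_rfl (by simpa using h3 _ _)).1 J J le_rfl le_rfl u J
        le_rfl le_rfl).symm
  rw [k, show 0 + (d : ℤ) * (H * L.N) = (H * L.N * d : ℕ) by push_cast; ring, h2]
  simp only [h4, flat_eq]

end Pool.Agent.MP_88e1ca_an.Log
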