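import Pool.Agent.MP_88e1ca_an.Log.A

/-! Locality, cones, walls. -/

set_option autoImplicit false

namespace Pool.Agent.MP_88e1ca_an.Log

variable {H M : ℕ} {V : Type} [CommRing V] (L : Lv H M V) (P : ZMod H → Ins M)

theorem U_loc {κ κ' : ℤ → ZMod 4} {x x' : ℤ → V} (σ : V) (i : ℤ)
    (h : ∀ j, i ≤ j → j ≤ i + 6 → κ j = κ' j ∧ x j = x' j) : U L P κ σ x i = U L P κ' σ x' i := by
  simp only [U, pD, pR, h i le_rfl (by omega), h (i + 1) (by omega) (by omega),
    h (i + 2) (by omega) (by omega), h (i + 3) (by omega) (by omega), h (i + 4) (by omega) (by omega),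
    h (i + 5) (by omega) (by omega), h (i + 6) (by omega) (by omega)]

theorem F_loc {y y' : ℤ → ZMod 4 × V} (i : ℤ) (h : ∀ j, i ≤ j → j ≤ i + 7 → y j = y' j) :
    F L P y i = F L P y' i := by
  have k : ∀ j, i ≤ j → j ≤ i + 1 → U L P (fun j => (y j).1) 1 (fun j => (y j).2) j =
      U L P (fun j => (y' j).1) 1 (fun j => (y' j).2) j := fun j _ _ =>
    U_loc L P 1 j fun l _ _ => by rw [h l (by omega) (by omega)]; exact ⟨rfl, rfl⟩
  simp only [F, TK, TC, k i le_rfl (by omega), k (i + 1) (by omega) le_rfl, h i le_rfl (by omega),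
    h (i + 1) (by omega) (by omega)]

theorem Fi_loc {y y' : ℤ → ZMod 4 × V} (i : ℤ) (h : ∀ j, i ≤ j → j ≤ i + 7 → y j = y' j) :
    Fi L P y i = Fi L P y' i := by
  simp only [Fi, h i le_rfl (by omega)]
  congr 1
  exact U_loc L P _ i fun j _ _ => by
    simp only [TC, TK, h j (by omega) (by omega), h (j + 1) (by omega) (by omega), and_self]

theorem F_K {y : ℤ → ZMod 4 × V} {i : ℤ} (h : (y i).1 = 3) :
    F L P y i = (3, L.ng (L.nt (y i).2)) := by
  simp only [F, TK, TC, h, if_true, U_CK L P (fun j => (y j).1) 1 _ (Or.inr h)]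
  rw [if_neg fun q => absurd q.1 (by decide)]

theorem F_C {y : ℤ → ZMod 4 × V} {i : ℤ} (h : (y i).1 = 2) (k : (y (i + 1)).1 = 3) :
    F L P y i = (2, (y i).2 + L.cst (1, 0) * zz L (y (i + 1)).2) := by
  simp only [F, TK, TC, h, k, and_self, if_true, U_CK L P (fun j => (y j).1) 1 _ (Or.inl h),
    U_CK L P (fun j => (y j).1) 1 _ (Or.inr k), one_mul]
  rw [if_neg (by decide)]

theorem F_U {y : ℤ → ZMod 4 × V} {i : ℤ} (h : (y i).1 ≠ 3) (k : ¬ ((y i).1 = 2 ∧ (y (i + 1)).1 = 3)) :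
    F L P y i = ((y i).1, U L P (fun j => (y j).1) 1 (fun j => (y j).2) i) := by
  simp only [F, TK, TC, if_neg h, if_neg k]

theorem F_idle {y : ℤ → ZMod 4 × V} {i : ℤ} (h : (y i).1 ≠ 3)
    (k : ∀ j, i < j → j ≤ i + 3 → (y j).1 = 3 → L.val (y j).2 ≠ 0) : F L P y i = y i := by
  by_cases q : (y i).1 = 2 ∧ (y (i + 1)).1 = 3
  · rw [F_C L P q.1 q.2, zz, if_neg (k _ (by omega) (by omega) q.2), mul_zero, add_zero, ← q.1]
  · rw [F_U L P h q, U]
    split_ifs with h1 h2
    · rw [cv, zz, if_neg (k _ (by omega) (by omega) h1.2.2.2), mul_zero, mul_zero, act_zero]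
    · simp [rv, zz, k _ (by omega) (by omega) h2.2.2.1]
    · rfl

/-- the rule holds in the columns `a, …, b` -/
def Dia (a b : ℤ) (y : ℤ → ℤ → ZMod 4 × V) : Prop :=
  ∀ t x, a ≤ x → x ≤ b → y (t + 1) x = F L P (y t) x

/-- no wall after the place `Z` -/
def Open (z : ℤ → ZMod 4 × V) (Z : ℤ) : Prop :=
  (z (Z + 1)).1 = (z Z).1 + 1 ∧ ((z Z).1 = 3 → (z (Z - 1)).1 = 2 ∧ (z (Z + 3)).1 = 2 ∧
    (z (Z + 3 + 1)).1 = 3 ∧ (L.last (z (Z - 1)).2).1 = (L.last (z (Z + 3)).2).1 ∧
    (L.last (z (Z - 1)).2).2.2.1 + 1 = (L.last (z (Z + 3)).2).2.2.1 ∧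
    (L.last (z (Z + 3)).2).2.1 = 0 ∧ L.val (z Z).2 = L.val (z (Z + 3 + 1)).2)

theorem const_step {α : Type} (f : ℤ → α) (h : ∀ t, f (t + 1) = f t) (s t : ℤ) : f t = f s := by
  have : ∀ t, f t = f 0 := fun t => by
    induction t using Int.induction_on with
    | zero => rfl
    | succ i ih => rw [h, ih]
    | pred i ih => rw [← ih, ← h, sub_add_cancel]
  rw [this, this s]

theorem succ_inj {N u v : ℕ} (hu : u < N) (hv : v < N) : (u + 1) % N = (v + 1) % N ↔ u = v :=
  ⟨fun h => (Nat.ModEq.add_right_cancel' 1 h).eq_of_lt_of_lt hu hv, fun h => h ▸ rfl⟩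

theorem last_C (c k : V) : L.last (c + L.cst (1, 0) * zz L k) =
    ((L.last c).1 + if L.val k = 0 then 1 else 0, (L.last c).2) := by
  rw [zz]
  split_ifs
  · rw [mul_one, map_add, L.last_cst]
    exact Prod.ext rfl (add_zero _)
  · simp

theorem wall {z : ℤ → ZMod 4 × V} {Z : ℤ} (k : ¬ Open L z Z) (x : ℤ) :
    F L P (fun j => if j ≤ Z then z j else (0, 0)) x = if x ≤ Z then F L P z x else (0, 0) := by
  have o : ∀ c : ZMod 4, c ≠ 3 → (z Z).1 = c → (z (Z + 1)).1 ≠ c + 1 := fun c h1 h2 h3 =>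
    k ⟨h2 ▸ h3, fun q => absurd (h2 ▸ q) h1⟩
  have g : ∀ j, (if j ≤ Z then z j else ((0, 0) : ZMod 4 × V)).1 = 3 → j ≤ Z := fun j q => by
    by_contra c
    rw [if_neg c] at q
    exact (by decide : (0 : ZMod 4) ≠ 3) q
  split_ifs with hx
  swap
  · rw [F_idle L P (by rw [if_neg hx]; exact (by decide : (0 : ZMod 4) ≠ 3)) fun j _ _ q => absurd (g j q) (by omega), if_neg hx]
  by_cases h3 : (z x).1 = 3
  · rw [F_K L P h3, F_K L P (by rw [if_pos hx]; exact h3), if_pos hx]
  by_cases h2 : (z x).1 = 2 ∧ (z (x + 1)).1 = 3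
  · have : x + 1 ≤ Z := by
      by_contra c
      obtain rfl : x = Z := by omega
      exact o 2 (by decide) h2.1 h2.2
    rw [F_C L P h2.1 h2.2, F_C L P (by rw [if_pos hx]; exact h2.1) (by rw [if_pos this]; exact h2.2),
      if_pos hx, if_pos this]
  rw [F_U L P h3 h2, F_U L P (by rwa [if_pos hx]) fun q => h2 (by
    have := g _ q.2
    rwa [if_pos hx, if_pos this] at q), if_pos hx]
  congr 1
  by_cases h6 : x + 6 ≤ Z
  · exact U_loc L P 1 x fun j _ _ => by simp only [if_pos (show j ≤ Z by omega), and_self]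
  have nR : ¬ pR (fun j => (if j ≤ Z then z j else ((0, 0) : ZMod 4 × V)).1) x :=
    fun q => h6 (g _ q.2.2.2.2.2.2)
  by_cases hD : pD (fun j => (z j).1) x
  · have : x + 3 ≤ Z := by
      obtain ⟨k0, k1, k2, k3⟩ := hD
      by_contra c
      rcases (by omega : Z = x ∨ Z = x + 1 ∨ Z = x + 2) with rfl | rfl | rfl
      · exact o 0 (by decide) k0 k1
      · exact o 1 (by decide) k1 (by rw [add_assoc]; exact k2)
      · exact o 2 (by decide) k2 (by rw [add_assoc]; exact k3)
    simp only [U, pD, if_pos hx, if_pos this, if_pos (show x + 1 ≤ Z by omega),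
      if_pos (show x + 2 ≤ Z by omega)]
    exact (if_pos hD).trans (if_pos hD).symm
  have nD : ¬ pD (fun j => (if j ≤ Z then z j else ((0, 0) : ZMod 4 × V)).1) x := fun q => hD (by
    have := g _ q.2.2.2
    simpa only [pD, if_pos hx, if_pos this, if_pos (show x + 1 ≤ Z by omega),
      if_pos (show x + 2 ≤ Z by omega)] using q)
  rw [U, U, if_neg nD, if_neg nR, if_neg hD, if_pos hx]
  split_ifs with hR
  swap
  · rfl
  obtain ⟨k0, k1, k2, k3, k4, k5, k6⟩ := hR
  rcases (by omega : Z = x ∨ Z = x + 1 ∨ Z = x + 2 ∨ Z = x + 3 ∨ Z = x + 4 ∨ Z = x + 5) with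
    rfl | rfl | rfl | rfl | rfl | rfl
  · exact (o 1 (by decide) k0 k1).elim
  · exact (o 2 (by decide) k1 (by rw [add_assoc]; exact k2)).elim
  · rw [rv]
    split_ifs with q
    · by_cases q1 : (L.last (z (x + 5)).2).2.1 = 0
      · by_cases q2 : L.val (z (x + 2)).2 = L.val (z (x + 6)).2
        · refine (k ?_).elim
          simp only [Open, show x + 2 + 1 = x + 3 by ring, show x + 2 - 1 = x + 1 by ring,
            show x + 2 + 3 = x + 5 by ring, show x + 5 + 1 = x + 6 by ring]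
          exact ⟨k3.trans (by rw [show (z (x + 2)).1 = 3 from k2]; decide), fun _ => ⟨k1, k5, k6, q.1, q.2, q1, q2⟩⟩
        · by_cases q3 : L.val (z (x + 2)).2 = 0
          · simp [zz, q3 ▸ Ne.symm q2]
          · simp [zz, q3]
      · simp [Gf, q1]
    · simp
  · exact (o 0 (by decide) k3 (by rw [add_assoc]; exact k4)).elim
  · exact (o 1 (by decide) k4 (by rw [add_assoc]; exact k5)).elim
  · exact (o 2 (by decide) k5 (by rw [add_assoc]; exact k6)).elim

variable {L P} {a b : ℤ} {y y' : ℤ → ℤ → ZMod 4 × V}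

theorem Dia.kind (h : Dia L P a b y) {x : ℤ} (h1 : a ≤ x) (h2 : x ≤ b) (s t : ℤ) :
    (y t x).1 = (y s x).1 := const_step (fun t => (y t x).1) (fun t => by rw [h t x h1 h2]; rfl) s t

theorem Dia.opn (h : Dia L P a b y) {Z s : ℤ} (h1 : a + 1 ≤ Z) (h2 : Z + 4 ≤ b)
    (k : Open L (y s) Z) (t : ℤ) : Open L (y t) Z := by
  refine (const_step (fun t => Open L (y t) Z) (fun t => propext ?_) s t).mpr k
  simp only [Open, h.kind (x := Z) (by omega) (by omega) t (t + 1),
    h.kind (x := Z + 1) (by omega) (by omega) t (t + 1), h.kind (x := Z - 1) (by omega) (by omega) t (t + 1),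
    h.kind (x := Z + 3) (by omega) (by omega) t (t + 1),
    h.kind (x := Z + 3 + 1) (by omega) (by omega) t (t + 1)]
  refine and_congr_right fun _ => forall_congr' fun k0 => and_congr_right fun k1 =>
    and_congr_right fun k2 => and_congr_right fun k3 => ?_
  rw [h t (Z - 1) (by omega) (by omega), h t Z (by omega) (by omega), h t (Z + 3) (by omega) (by omega),
    h t (Z + 3 + 1) (by omega) (by omega), F_K L P k0, F_K L P k3, F_C L P k2 k3,
    F_C L P k1 (by rwa [sub_add_cancel]), sub_add_cancel]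
  simp only [last_C, L.val_tick, succ_inj (L.val_lt _) (L.val_lt _)]
  refine ⟨fun q => ⟨?_, q.2⟩, fun q => ⟨by rw [q.1, q.2.2.2], q.2⟩⟩
  have := q.1
  rwa [q.2.2.2, add_left_inj] at this

theorem Dia.cut (h : Dia L P a b y) {Z s : ℤ} (h1 : a + 1 ≤ Z) (h2 : Z + 4 ≤ b)
    (k : ¬ Open L (y s) Z) (c : ℤ) : Dia L P a c fun t x => if x ≤ Z then y t x else (0, 0) := by
  intro t x h3 _
  rw [wall L P fun q => k (h.opn h1 h2 q s)]
  exact if_ctx_congr Iff.rfl (fun _ => h t x h3 (by omega)) fun _ => rfl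

variable (h1 : (1 : ZMod M) ≠ 0)
include h1

theorem F_inj {y y' : ℤ → ZMod 4 × V} (i : ℤ) (h : ∀ j, i < j → j ≤ i + 7 → y j = y' j)
    (e : F L P y i = F L P y' i) : y i = y' i := by
  have := Fi_loc L P (y := F L P y) (y' := F L P (Function.update y i (y' i))) i fun j k1 _ => by
    rcases k1.eq_or_lt with rfl | k
    · rw [e]
      refine F_loc L P _ fun l l1 l2 => ?_
      rcases l1.eq_or_lt with rfl | l3
      · rw [Function.update_self]
      · rw [Function.update_of_ne l3.ne', h l l3 l2]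
    · exact F_loc L P _ fun l _ _ => (Function.update_of_ne (by omega) _ _).symm
  rwa [Fi_F L P h1, Fi_F L P h1, Function.update_self] at this

theorem Dia.tri (h : Dia L P a b y) (h' : Dia L P a b y') {c s : ℤ} (hc : c ≤ b)
    (e : ∀ x, a ≤ x → x ≤ c → y s x = y' s x) (t : ℤ) :
    ∀ x, a ≤ x → x + 7 * |t - s| ≤ c → y t x = y' t x := by
  obtain ⟨d, rfl⟩ : ∃ d, t = s + d := ⟨t - s, by ring⟩
  rw [add_sub_cancel_left]
  induction d using Int.induction_on with
  | zero => exact fun x k1 k2 => by simpa using e x k1 (by simpa using k2)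
  | succ d ih =>
    intro x k1 k2
    rw [abs_of_nonneg (by omega)] at k2 ih
    rw [← add_assoc, h _ x k1 (by omega), h' _ x k1 (by omega)]
    exact F_loc L P x fun j _ _ => ih j (by omega) (by omega)
  | pred d ih =>
    intro x k1 k2
    rw [abs_of_nonpos (by omega)] at k2 ih
    rw [← congrFun (Fi_F L P h1 (y _)) x, ← congrFun (Fi_F L P h1 (y' _)) x]
    refine Fi_loc L P x fun j _ _ => ?_
    rw [← h _ j (by omega) (by omega), ← h' _ j (by omega) (by omega),
      show s + (-d - 1) + 1 = s + -d by ring]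
    exact ih j (by omega) (by omega)

theorem Dia.ext (h : Dia L P a b y) (h' : Dia L P a b y') {c s n : ℤ} (hc : c ≤ b)
    (e : ∀ x, a ≤ x → x ≤ c → y s x = y' s x)
    (f : ∀ t, |t - s| ≤ n → ∀ x, c ≤ x → x ≤ c + 6 → y t x = y' t x) (k : ℕ) :
    ∀ t, |t - s| ≤ n → ∀ x, a ≤ x → c - k ≤ x → x ≤ c + 6 → y t x = y' t x := by
  induction k with
  | zero => exact fun t ht x _ k1 => f t ht x (by simpa using k1)
  | succ k ih =>
    intro t ht x k1 k2 k3
    by_cases q : c - k ≤ x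
    · exact ih t ht x k1 q k3
    push_cast at k2
    obtain ⟨d, rfl⟩ : ∃ d, t = s + d := ⟨t - s, by ring⟩
    rw [add_sub_cancel_left] at ht
    induction d using Int.induction_on with
    | zero => simpa using e x k1 (by omega)
    | succ d ih' =>
      rw [abs_le] at ht
      rw [← add_assoc, h _ x k1 (by omega), h' _ x k1 (by omega)]
      refine F_loc L P x fun j j1 _ => ?_
      rcases j1.eq_or_lt with rfl | j2
      · exact ih' (abs_le.2 (by omega))
      · exact ih _ (abs_le.2 (by omega)) j (by omega) (by omega) (by omega)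
    | pred d ih' =>
      rw [abs_le] at ht
      refine F_inj (L := L) (P := P) h1 x
        (fun j _ _ => ih _ (abs_le.2 (by omega)) j (by omega) (by omega) (by omega)) ?_
      rw [← h _ x k1 (by omega), ← h' _ x k1 (by omega), show s + (-d - 1) + 1 = s + -d by ring]
      exact ih' (abs_le.2 (by omega))

end Pool.Agent.MP_88e1ca_an.Log
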