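import Pool.Agent.MP_88e1ca_an.Log.C
import Pool.Agent.MP_88e1ca_an.Log.D

/-! Valid windows simulate the next level. -/

set_option autoImplicit false

namespace Pool.Agent.MP_88e1ca_an.Log

/-- the number of active times -/
def hh (N T : ℤ) : ℤ := T / N + if T % N = 0 then 0 else 1

theorem hh_succ {N : ℤ} (hN : 2 ≤ N) (T : ℤ) :
    hh N (T + 1) = hh N T + if T % N = 0 then 1 else 0 := by
  have h0 := Int.emod_nonneg T (show N ≠ 0 by omega)
  have h1 := Int.emod_lt_of_pos T (show 0 < N by omega)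
  have h2 := Int.emod_add_mul_ediv T N
  by_cases h : T % N + 1 < N
  · have := (Int.ediv_emod_unique (a := T + 1) (r := T % N + 1) (q := T / N) (show 0 < N by omega)).2
      ⟨by omega, by omega, h⟩
    rw [hh, hh, this.1, this.2]
    split_ifs <;> omega
  · have := (Int.ediv_emod_unique (a := T + 1) (r := 0) (q := T / N + 1) (show 0 < N by omega)).2
      ⟨by rw [mul_add]; omega, le_rfl, by omega⟩
    rw [hh, hh, this.1, this.2]
    split_ifs <;> omega

theorem hh_mul {N : ℤ} (hN : 2 ≤ N) (q : ℤ) : hh N (q * N) = q := by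
  simp [hh, show N ≠ 0 by omega]

theorem hh_le {N : ℤ} (hN : 2 ≤ N) (T : ℤ) : T ≤ N * hh N T ∧ N * hh N T < T + N := by
  have h0 := Int.emod_nonneg T (show N ≠ 0 by omega)
  have h1 := Int.emod_lt_of_pos T (show 0 < N by omega)
  have h2 := Int.emod_add_mul_ediv T N
  rw [hh, mul_add]
  split_ifs <;> omega

variable {H M : ℕ} {V : Type} [CommRing V] (L : Lv H M V) {P : ZMod H → Ins M}

/-- the periods `lo, …, hi` are valid and show the time `T` -/
def Good (e T : ℤ) (z : ℤ → ZMod 4 × V) (lo hi : ℤ) : Prop :=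
  ∀ j, lo ≤ j → j ≤ hi → (z (e + 4 * j)).1 = 0 ∧ (z (e + 4 * j + 1)).1 = 1 ∧
    (z (e + 4 * j + 2)).1 = 2 ∧ (z (e + 4 * j + 3)).1 = 3 ∧
    (L.last (z (e + 4 * j + 2)).2).1 = hh L.N T ∧ (L.last (z (e + 4 * j + 2)).2).2.1 = 0 ∧
    (L.last (z (e + 4 * j + 2)).2).2.2.1 = j ∧ (L.val (z (e + 4 * j + 3)).2 : ℤ) = T % L.N

theorem good [NeZero H] {z : ℤ → ZMod 4 × V} {a c : ℤ} (hc : a + 4 ≤ c)
    (h : ∀ Z, a ≤ Z → Z ≤ c → Open L z Z) : ∃ e T lo, a ≤ e + 4 * lo ∧ e + 4 * lo ≤ a + 4 ∧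
      ∀ hi, e + 4 * hi ≤ c → Good L e T z lo hi := by
  obtain ⟨Z, h1, h2, h3⟩ : ∃ Z, a ≤ Z ∧ Z ≤ a + 3 ∧ (z Z).1 = 3 := by
    have k1 := (h a le_rfl (by omega)).1
    have k2 := (h (a + 1) (by omega) (by omega)).1
    have k3 := (h (a + 1 + 1) (by omega) (by omega)).1
    rw [k1] at k2
    rw [k2] at k3
    rcases (by decide : ∀ k : ZMod 4, k = 3 ∨ k + 1 = 3 ∨ k + 1 + 1 = 3 ∨ k + 1 + 1 + 1 = 3) (z a).1
      with k | k | k | k
    exacts [⟨a, le_rfl, by omega, k⟩, ⟨_, by omega, by omega, k1.trans k⟩,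
      ⟨_, by omega, by omega, k2.trans k⟩, ⟨_, by omega, by omega, k3.trans k⟩]
  have hN : (2 : ℤ) ≤ L.N := by exact_mod_cast L.two
  have hv : (L.val (z Z).2 : ℤ) < L.N := by exact_mod_cast L.val_lt _
  obtain ⟨T, hT, hT'⟩ : ∃ T : ℤ, (L.last (z (Z - 1)).2).1 = hh L.N T ∧ (L.val (z Z).2 : ℤ) = T % L.N := by
    refine ⟨L.val (z Z).2 + L.N * ((L.last (z (Z - 1)).2).1.val - hh L.N (L.val (z Z).2)), ?_, ?_⟩
    · rw [hh, Int.add_mul_ediv_left _ _ (by omega), Int.add_mul_emod_self_left, hh]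
      simp only [Int.cast_add, Int.cast_sub, Int.cast_natCast, ZMod.natCast_zmod_val]
      ring
    · rw [Int.add_mul_emod_self_left, Int.emod_eq_of_lt (by omega) hv]
  obtain ⟨lo, hlo⟩ : ∃ lo : ℤ, (L.last (z (Z - 1)).2).2.2.1 + 1 = lo :=
    ⟨ZMod.cast ((L.last (z (Z - 1)).2).2.2.1 + 1), (ZMod.intCast_zmod_cast _).symm⟩
  have key : ∀ d : ℕ, Z + 4 * d ≤ c + 4 → (z (Z + 4 * d)).1 = 3 ∧
      (L.last (z (Z + 4 * d - 1)).2).1 = hh L.N T ∧
      (L.last (z (Z + 4 * d - 1)).2).2.2.1 + 1 = (lo + d : ℤ) ∧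
      (L.val (z (Z + 4 * d)).2 : ℤ) = T % L.N := fun d => by
    induction d with
    | zero => exact fun _ => by simpa using ⟨h3, hT, hlo, hT'⟩
    | succ d ih =>
      intro k
      push_cast at k ⊢
      obtain ⟨q1, q2, q3, q4⟩ := ih (by omega)
      obtain ⟨-, -, r1, r2, r3, -, r4⟩ := (h (Z + 4 * d) (by omega) (by omega)).2 q1
      rw [show Z + 4 * (d + 1 : ℤ) = Z + 4 * d + 3 + 1 by ring, add_sub_cancel_right, ← r2, ← r3,
        ← r4, q3]
      exact ⟨r1, q2, by push_cast; ring, q4⟩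
  refine ⟨Z + 1 - 4 * lo, T, lo, by omega, by omega, fun hi hh j j1 j2 => ?_⟩
  obtain ⟨d, rfl⟩ : ∃ d : ℕ, j = lo + d := ⟨(j - lo).toNat, by omega⟩
  obtain ⟨q1, q2, q3, q4⟩ := key d (by omega)
  obtain ⟨r0, r⟩ := h (Z + 4 * d) (by omega) (by omega)
  obtain ⟨-, r5, r1, r2, r3, r6, r4⟩ := r q1
  have r7 := (h (Z + 4 * d + 1) (by omega) (by omega)).1
  rw [q1] at r0
  rw [r0] at r7
  rw [show Z + 1 - 4 * lo + 4 * (lo + d) = Z + 4 * d + 1 by ring,
    show Z + 4 * d + 1 + 2 = Z + 4 * d + 3 by ring, show Z + 4 * d + 1 + 3 = Z + 4 * d + 3 + 1 by ring]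
  exact ⟨r0, r7, r5, r1, r2 ▸ q2, r6, r3 ▸ q3, r4 ▸ q4⟩

variable {L} {a b e T s lo hi : ℤ} {y y' : ℤ → ℤ → ZMod 4 × V}

theorem Dia.good (h : Dia L P a b y) (h1 : a ≤ e + 4 * lo) (h2 : e + 4 * hi + 3 ≤ b)
    (g : Good L e T (y s) lo hi) (t : ℤ) : Good L e (T + (t - s)) (y t) lo hi := by
  have hN : (2 : ℤ) ≤ L.N := by exact_mod_cast L.two
  refine (const_step (fun t => Good L e (T + (t - s)) (y t) lo hi) (fun t => propext ?_) s t).mpr
    (by simpa using g)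
  refine forall₃_congr fun j j1 j2 => ?_
  simp only [h.kind (x := e + 4 * j) (by omega) (by omega) t (t + 1),
    h.kind (x := e + 4 * j + 1) (by omega) (by omega) t (t + 1),
    h.kind (x := e + 4 * j + 2) (by omega) (by omega) t (t + 1),
    h.kind (x := e + 4 * j + 3) (by omega) (by omega) t (t + 1)]
  refine and_congr_right fun _ => and_congr_right fun _ => and_congr_right fun k2 =>
    and_congr_right fun k3 => ?_
  have e3 : e + 4 * j + 2 + 1 = e + 4 * j + 3 := by ring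
  rw [h t _ (by omega) (by omega), h t (e + 4 * j + 3) (by omega) (by omega), F_K L P k3,
    F_C L P k2 (e3 ▸ k3), e3, show T + (t + 1 - s) = T + (t - s) + 1 by ring, hh_succ hN]
  generalize T + (t - s) = T
  simp only [last_C, L.val_tick]
  have hv := L.val_lt (y t (e + 4 * j + 3)).2
  have k : (((L.val (y t (e + 4 * j + 3)).2 + 1) % L.N : ℕ) : ℤ) = (T + 1) % L.N ↔
      (L.val (y t (e + 4 * j + 3)).2 : ℤ) = T % L.N := by
    push_cast
    rw [← Int.emod_eq_of_lt (a := L.val _) (b := L.N) (by omega) (by exact_mod_cast hv),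
      Int.emod_add_emod]
    exact ⟨fun q => Int.ModEq.add_right_cancel' 1 q, fun q => Int.ModEq.add_right 1 q⟩
  rw [k]
  refine ⟨fun q => ⟨?_, q.2⟩, fun q => ⟨?_, q.2⟩⟩
  · have := q.1
    rw [← q.2.2.2] at this
    simpa using this
  · rw [← q.2.2.2, q.1]
    simp

theorem Good.idle {z : ℤ → ZMod 4 × V} (g : Good L e T z lo hi) (hT : T % L.N ≠ 0) {x : ℤ}
    (h1 : e + 4 * lo ≤ x) (h2 : x ≤ e + 4 * hi) (k : (z x).1 ≠ 3) : F L P z x = z x := by
  refine F_idle L P k fun i _ _ q => ?_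
  obtain ⟨j, hj⟩ : ∃ j, i = e + 4 * j ∨ i = e + 4 * j + 1 ∨ i = e + 4 * j + 2 ∨ i = e + 4 * j + 3 :=
    ⟨(i - e) / 4, by omega⟩
  obtain ⟨k0, k1, k2, k3, -, -, -, k4⟩ := g j (by omega) (by omega)
  rcases hj with rfl | rfl | rfl | rfl
  · exact absurd (k0.symm.trans q) (by decide)
  · exact absurd (k1.symm.trans q) (by decide)
  · exact absurd (k2.symm.trans q) (by decide)
  · omega

theorem Dia.fwd (h : Dia L P a b y) (h' : Dia L P a b y') (h1 : a ≤ e + 4 * lo)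
    (h2 : e + 4 * hi + 3 ≤ b) (g : Good L e T (y s) lo hi) (g' : Good L e T (y' s) lo hi) {u c : ℤ}
    (hu : e + 4 * lo ≤ u) (hc : c ≤ e + 4 * hi) (q : ∀ x, u ≤ x → x ≤ c → y s x = y' s x) (d : ℕ) :
    ∀ x, u ≤ x → x + 7 * (hh L.N (T + d) - hh L.N T) ≤ c → hh L.N T ≤ hh L.N (T + d) ∧
      y (s + d) x = y' (s + d) x := by
  have hN : (2 : ℤ) ≤ L.N := by exact_mod_cast L.two
  induction d with
  | zero => exact fun x k1 k2 => by simpa using q x k1 (by simpa using k2)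
  | succ d ih =>
    intro x k1 k2
    push_cast at k2 ⊢
    rw [← add_assoc, hh_succ hN] at k2 ⊢
    have i0 := ih x k1 (by split_ifs at k2 <;> omega)
    rw [← add_assoc, h _ x (by omega) (by split_ifs at k2 <;> omega),
      h' _ x (by omega) (by split_ifs at k2 <;> omega)]
    refine ⟨by split_ifs <;> omega, ?_⟩
    split_ifs at k2 with k
    · exact F_loc L P x fun j _ _ => (ih j (by omega) (by omega)).2
    · have g1 := h.good h1 h2 g (s + d)
      have g2 := h'.good h1 h2 g' (s + d)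
      rw [add_sub_cancel_left] at g1 g2
      by_cases k3 : (y (s + d) x).1 = 3
      · rw [F_K L P k3, F_K L P (i0.2 ▸ k3), i0.2]
      · rw [g1.idle k (by omega) (by omega) k3, g2.idle k (by omega) (by omega) (i0.2 ▸ k3), i0.2]

/-- data and registers -/
def st (e : ℤ) (z : ℤ → ZMod 4 × V) : (ℤ → V) × (ℤ → V) :=
  (fun j => (z (e + 4 * j)).2, fun j => (z (e + 4 * j + 1)).2)

theorem Dia.step (h : Dia L P a b y) (h1 : a ≤ e + 4 * lo) (h2 : e + 4 * hi + 3 ≤ b) {q : ℤ}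
    (g : Good L e (q * L.N) (y s) lo hi) {j : ℤ} (j1 : lo ≤ j) (j2 : j + 1 ≤ hi) :
    (st e (y (s + L.N))).1 j = (step L P (st e (y s)) (P q)).1 j ∧
      (st e (y (s + L.N))).2 j = (step L P (st e (y s)) (P q)).2 j := by
  have hN : (2 : ℤ) ≤ L.N := by exact_mod_cast L.two
  have key : ∀ x, e + 4 * lo ≤ x → x ≤ e + 4 * hi → (y s x).1 ≠ 3 → ∀ d : ℕ, d + 1 ≤ L.N →
      y (s + (d + 1)) x = F L P (y s) x := fun x k1 k2 k3 d => by
    induction d with
    | zero => exact fun _ => by simpa using h s x (by omega) (by omega)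
    | succ d ih =>
      intro k
      have g1 := h.good h1 h2 g (s + (d + 1))
      rw [add_sub_cancel_left] at g1
      rw [← ih (by omega), Nat.cast_succ, ← add_assoc, h _ x (by omega) (by omega), g1.idle _ k1 k2]
      · rwa [h.kind (by omega) (by omega) s]
      · rw [add_comm, Int.add_mul_emod_self_right, Int.emod_eq_of_lt (by omega) (by omega)]
        omega
  obtain ⟨a0, a1, a2, a3, a4, a5, a6, a7⟩ := g j j1 (by omega)
  obtain ⟨b0, b1, b2, b3, b4, b5, b6, b7⟩ := g (j + 1) (by omega) j2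
  rw [hh_mul hN] at a4 b4
  rw [Int.mul_emod_left, Nat.cast_eq_zero] at a7 b7
  have e0 : (L.N : ℤ) = (L.N - 1 : ℕ) + 1 := by omega
  have e1 : e + 4 * j + 1 + 1 = e + 4 * j + 2 := by ring
  have e2 : e + 4 * j + 1 + 2 = e + 4 * j + 3 := by ring
  have e3 : e + 4 * j + 1 + 3 = e + 4 * (j + 1) := by ring
  have e4 : e + 4 * j + 1 + 4 = e + 4 * (j + 1) + 1 := by ring
  have e5 : e + 4 * j + 1 + 5 = e + 4 * (j + 1) + 2 := by ring
  have e6 : e + 4 * j + 1 + 6 = e + 4 * (j + 1) + 3 := by ring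
  simp only [st]
  rw [e0, key _ (by omega) (by omega) (by rw [a0]; decide) _ (by omega),
    key _ (by omega) (by omega) (by rw [a1]; decide) _ (by omega),
    F_U L P (by rw [a0]; decide) (by rw [a0]; exact fun q => absurd q.1 (by decide)),
    F_U L P (by rw [a1]; decide) (by rw [a1]; exact fun q => absurd q.1 (by decide)), U, U,
    if_pos ⟨a0, a1, a2, a3⟩, if_neg fun q => absurd (a1.symm.trans q.1) (by decide),
    if_pos ⟨a1, e1 ▸ a2, e2 ▸ a3, e3 ▸ b0, e4 ▸ b1, e5 ▸ b2, e6 ▸ b3⟩]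
  simp only [e1, e2, e3, e4, e5, e6, Log.step, cv, rv, Ra, Gf, zz, a4, a5, a6, a7, b4, b5, b6, b7]
  constructor
  · congr 1
    split_ifs <;> simp_all [mul_comm]
  · cases (P q).g <;> by_cases k : (P q).snd = false ∧ (P q).b = j <;> simp [k] <;> ring

end Pool.Agent.MP_88e1ca_an.Log
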