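import Pool.Agent.MP_88e1ca_an.Log.Cone
import Pool.Agent.MP_88e1ca_an.Min.B

/-! The fixed point table and the growth bound. -/

set_option autoImplicit false

namespace Pool.Agent.MP_88e1ca_an.Log

theorem table (D : ℕ) : ∃ (H : ℕ) (P : ZMod H → Ins (8 * (D + 1))), H ≠ 0 ∧
    ((List.range H).map fun i : ℕ => P i) = prog D := by
  refine ⟨(prog D).length, fun h => (prog D).getD h.val (snd 0 0 0), ?_,
    List.ext_getElem (by simp) fun i h1 h2 => by simp [Nat.mod_eq_of_lt h2, h2]⟩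
  simp [prog, ops, dph, List.finRange_succ, body, pc, ch]

theorem growth {d : ℕ} {ε : ℝ} (hε : 0 < ε) (hd : (4 : ℝ) ^ (1 / ε) ≤ d) (h1 : 1 ≤ d) (n : ℕ)
    (hn : 2 ≤ n) : ((4 * d : ℝ)) ^ (Nat.clog d (Nat.clog 2 n) + 1) ≤
      (4 * d) ^ 2 * 4 ^ (1 + ε) * Real.log n ^ (1 + ε) := by
  have hd1 : (1 : ℝ) ≤ d := by exact_mod_cast h1
  have l2 := Real.log_two_gt_d9
  have l3 : Real.log 2 ≤ Real.log n := Real.log_le_log (by norm_num) (by exact_mod_cast hn)
  have h4 : (4 : ℝ) ≤ (d : ℝ) ^ ε := by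
    have := Real.rpow_le_rpow (by positivity) hd hε.le
    rwa [← Real.rpow_mul (by norm_num), one_div_mul_cancel hε.ne', Real.rpow_one] at this
  have hc : (Nat.clog 2 n : ℝ) ≤ 4 * Real.log n := by
    obtain ⟨c, hc⟩ : ∃ c, Nat.clog 2 n = c + 1 :=
      Nat.exists_eq_succ_of_ne_zero (Nat.clog_pos (by norm_num) hn).ne'
    have : 2 ^ c < n := Nat.pow_lt_of_lt_clog (by omega)
    have := Real.log_le_log (by positivity) (show (2 : ℝ) ^ c ≤ n by exact_mod_cast this.le)
    rw [Real.log_pow] at this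
    rw [hc]
    push_cast
    nlinarith [(Nat.cast_nonneg c : (0 : ℝ) ≤ c)]
  rw [mul_assoc, ← Real.mul_rpow (by norm_num) (by linarith)]
  rcases h : Nat.clog d (Nat.clog 2 n) with _ | k
  · have := Real.one_le_rpow (show 1 ≤ 4 * Real.log n by linarith) (show 0 ≤ 1 + ε by linarith)
    rw [zero_add, pow_one]
    nlinarith [mul_nonneg (sq_nonneg (4 * d : ℝ)) (sub_nonneg.2 this)]
  · have h2 : d ^ k < Nat.clog 2 n := Nat.pow_lt_of_lt_clog (by omega)
    have h3 : (d : ℝ) ^ k ≤ 4 * Real.log n := le_trans (by exact_mod_cast h2.le) hc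
    rw [add_assoc, pow_add, mul_comm]
    gcongr
    calc (4 * d : ℝ) ^ k ≤ ((d : ℝ) ^ (1 + ε)) ^ k := by
          rw [Real.rpow_add (by linarith), Real.rpow_one, mul_comm]
          gcongr
      _ = ((d : ℝ) ^ k) ^ (1 + ε) := by
          rw [← Real.rpow_natCast, ← Real.rpow_mul (by linarith), mul_comm,
            Real.rpow_mul (by linarith), Real.rpow_natCast]
      _ ≤ _ := Real.rpow_le_rpow (by positivity) h3 (by linarith)

end Pool.Agent.MP_88e1ca_an.Log
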