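import Pool.Agent.MP_88e1ca_an.Log.A

/-! The next level: vectors of symbols. -/

set_option autoImplicit false

namespace Pool.Agent.MP_88e1ca_an.Log

/-- the number with the given digits -/
def vv (N : ℕ) : (n : ℕ) → (Fin n → ℕ) → ℕ
  | 0, _ => 0
  | n + 1, f => f 0 * N ^ n + vv N n fun p => f p.succ

theorem vv_zero {N : ℕ} (hN : 0 < N) (n : ℕ) (f : Fin n → ℕ) : vv N n f = 0 ↔ ∀ p, f p = 0 := by
  induction n with
  | zero => simp [vv]
  | succ n ih => simp [vv, ih, Fin.forall_fin_succ, hN.ne']

theorem vv_nt {N : ℕ} (n : ℕ) (f g : Fin n → ℕ) (h : ∀ p, g p + f p + 1 = N) :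
    vv N n g + vv N n f + 1 = N ^ n := by
  induction n with
  | zero => rfl
  | succ n ih =>
    have := ih (fun p => f p.succ) (fun p => g p.succ) fun p => h _
    have e : N ^ (n + 1) = g 0 * N ^ n + f 0 * N ^ n + N ^ n := by
      rw [pow_succ]
      nth_rewrite 2 [← h 0]
      ring
    simp only [vv]
    omega

variable {H M : ℕ} {V : Type} [CommRing V] (L : Lv H M V)

/-- negation of a vector of digits -/
def ngv {n : ℕ} (S : Fin n → V) (p : Fin n) : V :=
  if ∀ q, p < q → L.val (S q) = 0 then L.ng (S p) else L.nt (S p)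

theorem ngv_succ {n : ℕ} (S : Fin (n + 1) → V) (p : Fin n) :
    ngv L S p.succ = ngv L (fun q => S q.succ) p := by
  simp [ngv, Fin.forall_fin_succ]

theorem vv_ng (n : ℕ) (S : Fin n → V) : vv L.N n (fun p => L.val (ngv L S p)) =
    if vv L.N n (fun p => L.val (S p)) = 0 then 0 else L.N ^ n - vv L.N n fun p => L.val (S p) := by
  have hN : 0 < L.N := by have := L.two; omega
  induction n with
  | zero => rfl
  | succ n ih =>
    have h1 := vv_nt n (fun p => L.val (S p.succ)) _ fun p => L.val_nt (S p.succ)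
    have h2 := L.val_nt (S 0)
    have e : L.N ^ (n + 1) = L.val (L.nt (S 0)) * L.N ^ n + L.val (S 0) * L.N ^ n + L.N ^ n := by
      rw [pow_succ]
      nth_rewrite 2 [← h2]
      ring
    have h3 : (∀ q, 0 < q → L.val (S q) = 0) ↔ vv L.N n (fun p => L.val (S p.succ)) = 0 := by
      simp [vv_zero hN, Fin.forall_fin_succ]
    have h4 : 0 < L.N ^ n := pow_pos hN n
    simp only [vv, ngv_succ, ih]
    rw [ngv]
    simp only [h3]
    by_cases k : vv L.N n (fun p => L.val (S p.succ)) = 0
    · simp only [k, if_true, add_zero, L.val_ng]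
      by_cases k2 : L.val (S 0) = 0
      · simp [k2]
      · rw [if_neg k2, if_neg (by positivity), Nat.sub_mul, pow_succ']
    · rw [if_neg k, if_neg k, if_neg (by omega)]
      omega

theorem ngv_ngv {n : ℕ} (S : Fin n → V) : ngv L (ngv L S) = S := by
  have h : ∀ x, L.val (L.ng x) = 0 ↔ L.val x = 0 := fun x => by
    have := L.val_lt x
    rw [L.val_ng]
    split_ifs <;> omega
  funext p
  have : (∀ q, p < q → L.val (ngv L S q) = 0) ↔ ∀ q, p < q → L.val (S q) = 0 := by
    refine ⟨fun k q => ?_, fun k q hq => ?_⟩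
    · induction q using WellFoundedGT.induction with
      | _ q ih =>
        intro hq
        have := k q hq
        rwa [ngv, if_pos fun r hr => ih r hr (hq.trans hr), h] at this
    · rw [ngv, if_pos fun r hr => k r (hq.trans hr), h, k q hq]
  rw [ngv]
  simp only [this]
  rw [ngv]
  split_ifs
  exacts [L.ng_ng _, L.nt_nt _]

/-- the next level -/
def up (D : ℕ) : Lv H M (Fin (D + 1) → V) where
  last := L.last.comp (Pi.evalRingHom _ (Fin.last D))
  cst := (Pi.constRingHom _ V).comp L.cst
  last_cst := L.last_cst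
  nt S p := L.nt (S p)
  ng := ngv L
  N := L.N ^ (D + 1)
  val S := vv L.N (D + 1) fun p => L.val (S p)
  two := L.two.trans (Nat.le_self_pow (by omega) _)
  nt_nt S := funext fun p => L.nt_nt _
  ng_ng := ngv_ngv L
  val_nt S := vv_nt _ _ _ fun p => L.val_nt _
  val_ng := vv_ng L _
  val_zero := (vv_zero (by have := L.two; omega) _ _).2 fun _ => L.val_zero

theorem up_val (D : ℕ) (S : Fin (D + 1) → V) : (up L D).val S = 0 ↔ ∀ p, L.val (S p) = 0 :=
  vv_zero (by have := L.two; omega) _ _

/-- the lowest level -/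
def base (H M : ℕ) : Lv H M (G H M) where
  last := RingHom.id _
  cst := RingHom.id _
  last_cst _ := rfl
  nt x := (x.1, x.2.1, x.2.2.1, x.2.2.2 + 1)
  ng x := x
  N := 2
  val x := x.2.2.2.val
  two := le_rfl
  nt_nt x := by
    have : ∀ b : ZMod 2, b + 1 + 1 = b := by decide
    simp [this]
  ng_ng _ := rfl
  val_nt x := (by decide : ∀ b : ZMod 2, (b + 1).val + b.val + 1 = 2) _
  val_ng x := (by decide : ∀ b : ZMod 2, b.val = if b.val = 0 then 0 else 2 - b.val) _
  val_zero := rfl

end Pool.Agent.MP_88e1ca_an.Log
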